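import Mathlib

/-!
# Matrices whose minors lie in a group with bounded fundamental elements

`G` is a multiplicative group of complex numbers such that `‖p‖ ≤ c ‖q‖` whenever `p`, `q` and
`p + q` (or `0`) are in `G`. If all minors of a nonsingular matrix `A` are zero or in `G`, then the
determinant of `A` is not much smaller than one of its nonzero terms.
-/

set_option autoImplicit false

namespace Pool.Agent.H2Swap

open Finset

/-- All minors of `A` are zero or in `G`. -/
def Good (G : Set ℂ) {n : ℕ} (A : Matrix (Fin n) (Fin n) ℂ) : Prop :=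
  ∀ (k : ℕ) (f g : Fin k → Fin n), Function.Injective f → Function.Injective g →
    (A.submatrix f g).det = 0 ∨ (A.submatrix f g).det ∈ G

theorem schur0 {k : ℕ} (B : Matrix (Fin (k + 1)) (Fin (k + 1)) ℂ) (h : B 0 0 ≠ 0) :
    B.det = B 0 0 * (Matrix.of fun i j : Fin k =>
      B i.succ j.succ - B i.succ 0 * B 0 j.succ / B 0 0).det := by
  set C : Matrix (Fin (k + 1)) (Fin (k + 1)) ℂ := Matrix.of fun i j =>
    B i j - (if i = 0 then 0 else B i 0 / B 0 0) * B 0 j with hC
  have h1 : C.det = B.det := by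
    refine Matrix.det_eq_of_forall_row_eq_smul_add_const
      (fun i => -(if i = 0 then 0 else B i 0 / B 0 0)) 0 (by simp) ?_
    intro i j
    simp only [hC, Matrix.of_apply]
    ring
  rw [← h1, Matrix.det_succ_column_zero, Fin.sum_univ_succ]
  have h2 : ∀ i : Fin k, C i.succ 0 = 0 := by
    intro i
    simp only [hC, Matrix.of_apply, if_neg (Fin.succ_ne_zero i)]
    field_simp
    ring
  rw [Finset.sum_eq_zero (fun i _ => by rw [h2 i]; ring), add_zero]
  have h3 : C 0 0 = B 0 0 := by simp [hC]
  have h4 : C.submatrix (Fin.succAbove 0) Fin.succ = Matrix.of fun i j : Fin k =>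
      B i.succ j.succ - B i.succ 0 * B 0 j.succ / B 0 0 := by
    ext i j
    simp only [hC, Matrix.submatrix_apply, Matrix.of_apply, Fin.succAbove_zero,
      if_neg (Fin.succ_ne_zero i)]
    ring
  rw [h3, h4]
  simp

/-- The Schur complement of the entry `(p, q)`. -/
noncomputable def schur {n : ℕ} (A : Matrix (Fin (n + 1)) (Fin (n + 1)) ℂ) (p q : Fin (n + 1)) :
    Matrix (Fin n) (Fin n) ℂ :=
  Matrix.of fun i j => A (p.succAbove i) (q.succAbove j) -
    A (p.succAbove i) q * A p (q.succAbove j) / A p q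

theorem norm_det_perm {n : ℕ} (A : Matrix (Fin n) (Fin n) ℂ) (σ τ : Equiv.Perm (Fin n)) :
    ‖(A.submatrix σ τ).det‖ = ‖A.det‖ := by
  have h1 : A.submatrix σ τ = (A.submatrix σ id).submatrix id τ := by
    ext i j; rfl
  have h2 : ∀ ρ : Equiv.Perm (Fin n), ‖((Equiv.Perm.sign ρ : ℤ) : ℂ)‖ = 1 := by
    intro ρ
    rcases Int.units_eq_one_or (Equiv.Perm.sign ρ) with h | h <;> simp [h]
  rw [h1, Matrix.det_permute', Matrix.det_permute, norm_mul, norm_mul, h2, h2, one_mul, one_mul]

theorem norm_schur {n : ℕ} (A : Matrix (Fin (n + 1)) (Fin (n + 1)) ℂ) (p q : Fin (n + 1))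
    (h : A p q ≠ 0) : ‖A.det‖ = ‖A p q‖ * ‖(schur A p q).det‖ := by
  rw [← norm_det_perm A (Fin.cycleRange p).symm (Fin.cycleRange q).symm, schur0, norm_mul]
  · congr 1
    · rw [Matrix.submatrix_apply, Fin.cycleRange_symm_zero, Fin.cycleRange_symm_zero]
    · congr 2
      ext i j
      simp only [schur, Matrix.of_apply, Matrix.submatrix_apply, Fin.cycleRange_symm_zero,
        Fin.cycleRange_symm_succ]
  · rwa [Matrix.submatrix_apply, Fin.cycleRange_symm_zero, Fin.cycleRange_symm_zero]

theorem good_entry {G : Set ℂ} {n : ℕ} {A : Matrix (Fin n) (Fin n) ℂ} (hA : Good G A)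
    (i j : Fin n) : A i j = 0 ∨ A i j ∈ G := by
  have := hA 1 (fun _ => i) (fun _ => j) (Function.injective_of_subsingleton _)
    (Function.injective_of_subsingleton _)
  simpa using this

theorem good_sub {G : Set ℂ} {n m : ℕ} {A : Matrix (Fin n) (Fin n) ℂ} (hA : Good G A)
    (f g : Fin m → Fin n) (hf : Function.Injective f) (hg : Function.Injective g) :
    Good G (A.submatrix f g) := by
  intro k f' g' hf' hg'
  exact hA k (f ∘ f') (g ∘ g') (hf.comp hf') (hg.comp hg')

theorem good_schur {G : Set ℂ} (hmul : ∀ p ∈ G, ∀ q ∈ G, p * q ∈ G) (hinv : ∀ p ∈ G, p⁻¹ ∈ G)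
    {n : ℕ} {A : Matrix (Fin (n + 1)) (Fin (n + 1)) ℂ} (hA : Good G A) (p q : Fin (n + 1))
    (h : A p q ≠ 0) : Good G (schur A p q) := by
  intro k f g hf hg
  have hF : ∀ (p : Fin (n + 1)) (f : Fin k → Fin n), Function.Injective f →
      Function.Injective (Fin.cons p (fun i => p.succAbove (f i)) : Fin (k + 1) → Fin (n + 1)) := by
    intro p f hf
    rw [Fin.cons_injective_iff]
    refine ⟨?_, fun i j hij => hf (Fin.succAbove_right_injective hij)⟩
    rintro ⟨i, hi⟩
    exact Fin.succAbove_ne p (f i) hi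
  have h1 := hA (k + 1) (Fin.cons p (fun i => p.succAbove (f i)))
    (Fin.cons q (fun j => q.succAbove (g j))) (hF p f hf) (hF q g hg)
  set B := A.submatrix (Fin.cons p (fun i => p.succAbove (f i)) : Fin (k + 1) → Fin (n + 1))
    (Fin.cons q (fun j => q.succAbove (g j)) : Fin (k + 1) → Fin (n + 1)) with hB
  have h2 : B.det = A p q * ((schur A p q).submatrix f g).det := by
    rw [schur0 B (by simpa [hB] using h)]
    congr 1
  have h3 : A p q ∈ G := (good_entry hA p q).resolve_left h
  rcases h1 with h4 | h4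
  · left
    rw [h2] at h4
    exact (mul_eq_zero.1 h4).resolve_left h
  · right
    have h5 : ((schur A p q).submatrix f g).det = (A p q)⁻¹ * B.det := by
      rw [h2, ← mul_assoc, inv_mul_cancel₀ h, one_mul]
    rw [h5]
    exact hmul _ (hinv _ h3) _ h4

section

variable (G : Set ℂ) (c : ℝ) (hc : 1 ≤ c)
  (hmul : ∀ p ∈ G, ∀ q ∈ G, p * q ∈ G) (hinv : ∀ p ∈ G, p⁻¹ ∈ G) (hneg : ∀ p ∈ G, -p ∈ G)
  (hC : ∀ p ∈ G, ∀ q ∈ G, (p + q = 0 ∨ p + q ∈ G) → ‖p‖ ≤ c * ‖q‖)

include hc hmul hinv hneg hC in
/-- The relative gain. -/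
theorem rel_gain : ∀ (n : ℕ) (A : Matrix (Fin (n + 1)) (Fin (n + 1)) ℂ), Good G A →
    A 0 0 ≠ 0 → (A.submatrix Fin.succ Fin.succ).det ≠ 0 → A.det ≠ 0 →
    ‖A 0 0‖ * ‖(A.submatrix Fin.succ Fin.succ).det‖ ≤ c ^ n * (n.factorial : ℝ) * ‖A.det‖ := by
  intro n
  induction n with
  | zero =>
    intro A _ _ _ _
    simp
  | succ n ih =>
    intro A hA hν hα hdet
    have hc0 : (0 : ℝ) < c := by linarith
    by_cases hex : ∃ i j : Fin (n + 1), A i.succ j.succ ≠ 0 ∧
        A 0 0 * A i.succ j.succ - A 0 j.succ * A i.succ 0 ≠ 0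
    · obtain ⟨i, j, hij, hm⟩ := hex
      set A' := schur A i.succ j.succ with hA'
      have e0 : A' 0 0 = A 0 0 - A 0 j.succ * A i.succ 0 / A i.succ j.succ := by
        simp [hA', schur]
      have e1 : A' 0 0 * A i.succ j.succ = A 0 0 * A i.succ j.succ - A 0 j.succ * A i.succ 0 := by
        rw [e0]
        field_simp
      have hν' : A' 0 0 ≠ 0 := by
        intro h
        rw [h, zero_mul] at e1
        exact hm e1.symm
      set α := A.submatrix Fin.succ Fin.succ with hαdef
      have e2 : A'.submatrix Fin.succ Fin.succ = schur α i j := by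
        ext k l
        simp [hA', schur, hαdef, Fin.succ_succAbove_succ]
      have hαij : α i j ≠ 0 := hij
      have n1 := norm_schur α i j hαij
      have n2 := norm_schur A i.succ j.succ hij
      have hα' : (A'.submatrix Fin.succ Fin.succ).det ≠ 0 := by
        rw [e2]
        intro h
        rw [h, norm_zero, mul_zero, norm_eq_zero] at n1
        exact hα n1
      have hdet' : A'.det ≠ 0 := by
        intro h
        rw [← hA', h, norm_zero, mul_zero, norm_eq_zero] at n2
        exact hdet n2
      have key := ih A' (good_schur hmul hinv hA _ _ hij) hν' hα' hdet'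
      -- the factor `c`
      have g0 : A 0 0 ∈ G := (good_entry hA 0 0).resolve_left hν
      have gij : A i.succ j.succ ∈ G := (good_entry hA _ _).resolve_left hij
      have gm : A 0 0 * A i.succ j.succ - A 0 j.succ * A i.succ 0 ∈ G := by
        have hinj : ∀ i : Fin (n + 1), Function.Injective (![0, i.succ] : Fin 2 → Fin (n + 2)) := by
          intro i a b hab
          fin_cases a <;> fin_cases b
          · rfl
          · exact absurd hab.symm (Fin.succ_ne_zero i)
          · exact absurd hab (Fin.succ_ne_zero i)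
          · rfl
        have h1 := hA 2 ![0, i.succ] ![0, j.succ] (hinj i) (hinj j)
        rw [Matrix.det_fin_two] at h1
        simpa [hm] using h1
      have gp : A 0 j.succ * A i.succ 0 = 0 ∨ A 0 j.succ * A i.succ 0 ∈ G := by
        rcases good_entry hA 0 j.succ with h | h
        · left; rw [h, zero_mul]
        · rcases good_entry hA i.succ 0 with h' | h'
          · left; rw [h', mul_zero]
          · right; exact hmul _ h _ h'
      have hcomp := hC _ (hmul _ g0 _ gij) _ (hneg _ gm) (by
        have e : A 0 0 * A i.succ j.succ + -(A 0 0 * A i.succ j.succ - A 0 j.succ * A i.succ 0) =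
            A 0 j.succ * A i.succ 0 := by ring
        rw [e]
        exact gp)
      rw [norm_neg, ← e1, norm_mul, norm_mul] at hcomp
      have hpos : 0 < ‖A i.succ j.succ‖ := norm_pos_iff.2 hij
      have hν2 : ‖A 0 0‖ ≤ c * ‖A' 0 0‖ := by
        refine le_of_mul_le_mul_right ?_ hpos
        calc ‖A 0 0‖ * ‖A i.succ j.succ‖ ≤ c * (‖A' 0 0‖ * ‖A i.succ j.succ‖) := hcomp
          _ = _ := by ring
      have e3 : ‖α i j‖ = ‖A i.succ j.succ‖ := rfl
      rw [n1, n2, e3, ← e2, ← hA']
      have hfac : (n.factorial : ℝ) ≤ ((n + 1).factorial : ℝ) := by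
        exact_mod_cast Nat.factorial_le (Nat.le_succ n)
      calc ‖A 0 0‖ * (‖A i.succ j.succ‖ * ‖(A'.submatrix Fin.succ Fin.succ).det‖) ≤
          (c * ‖A' 0 0‖) * (‖A i.succ j.succ‖ * ‖(A'.submatrix Fin.succ Fin.succ).det‖) :=
            mul_le_mul_of_nonneg_right hν2 (by positivity)
        _ = c * ‖A i.succ j.succ‖ * (‖A' 0 0‖ * ‖(A'.submatrix Fin.succ Fin.succ).det‖) := by ring
        _ ≤ c * ‖A i.succ j.succ‖ * (c ^ n * (n.factorial : ℝ) * ‖A'.det‖) :=
            mul_le_mul_of_nonneg_left key (by positivity)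
        _ ≤ c * ‖A i.succ j.succ‖ * (c ^ n * ((n + 1).factorial : ℝ) * ‖A'.det‖) := by
            gcongr
        _ = _ := by ring
    · push Not at hex
      -- all entries are `0` or `u i * v j / ν`
      let H : Matrix (Fin (n + 1)) (Fin (n + 1)) ℤ := Matrix.of fun i j =>
        if A i.succ j.succ = 0 then 0 else 1
      have hent : ∀ i j : Fin (n + 1), A i.succ j.succ =
          A i.succ 0 * ((A 0 j.succ / A 0 0) * ((H i j : ℤ) : ℂ)) := by
        intro i j
        by_cases h : A i.succ j.succ = 0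
        · simp [H, h]
        · have h1 := hex i j h
          have h2 : H i j = 1 := by simp [H, h]
          rw [h2, Int.cast_one, mul_one]
          field_simp
          linear_combination h1
      have hα1 : (A.submatrix Fin.succ Fin.succ).det =
          (∏ i : Fin (n + 1), A i.succ 0) * ((∏ j : Fin (n + 1), (A 0 j.succ / A 0 0)) *
            ((H.det : ℤ) : ℂ)) := by
        have e : A.submatrix Fin.succ Fin.succ = Matrix.of fun i j : Fin (n + 1) =>
            A i.succ 0 * (Matrix.of (fun i j : Fin (n + 1) => (A 0 j.succ / A 0 0) *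
              (H.map (Int.castRingHom ℂ)) i j) i j) := by
          ext i j
          rw [Matrix.submatrix_apply, hent i j]
          rfl
        rw [e, Matrix.det_mul_column, Matrix.det_mul_row]
        congr 2
        exact (RingHom.map_det (Int.castRingHom ℂ) H).symm
      have hA1 : A.det = A 0 0 * ((∏ i : Fin (n + 1), A i.succ 0) *
          ((∏ j : Fin (n + 1), (A 0 j.succ / A 0 0)) *
            (((Matrix.of fun i j => H i j - 1 : Matrix (Fin (n + 1)) (Fin (n + 1)) ℤ).det : ℤ) :
              ℂ))) := by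
        rw [schur0 A hν]
        congr 1
        have e : (Matrix.of fun i j : Fin (n + 1) =>
            A i.succ j.succ - A i.succ 0 * A 0 j.succ / A 0 0) = Matrix.of fun i j : Fin (n + 1) =>
            A i.succ 0 * (Matrix.of (fun i j : Fin (n + 1) => (A 0 j.succ / A 0 0) *
              ((Matrix.of fun i j => H i j - 1 :
                Matrix (Fin (n + 1)) (Fin (n + 1)) ℤ).map (Int.castRingHom ℂ)) i j) i j) := by
          ext i j
          simp only [Matrix.of_apply, Matrix.map_apply, eq_intCast, Int.cast_sub, Int.cast_one]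
          rw [hent i j]
          ring
        rw [e, Matrix.det_mul_column, Matrix.det_mul_row]
        congr 2
        exact (RingHom.map_det (Int.castRingHom ℂ) _).symm
      set K := (∏ i : Fin (n + 1), A i.succ 0) with hK
      set K' := ∏ j : Fin (n + 1), (A 0 j.succ / A 0 0) with hK'
      set dH := H.det with hdH
      set dJ := (Matrix.of fun i j => H i j - 1 : Matrix (Fin (n + 1)) (Fin (n + 1)) ℤ).det
        with hdJ
      have hJ : (1 : ℝ) ≤ ‖((dJ : ℤ) : ℂ)‖ := by
        have h1 : dJ ≠ 0 := by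
          intro h
          apply hdet
          rw [hA1, h]
          simp
        rw [Complex.norm_intCast]
        have : (1 : ℤ) ≤ |dJ| := Int.one_le_abs h1
        exact_mod_cast this
      have hH : ‖((dH : ℤ) : ℂ)‖ ≤ ((n + 1).factorial : ℝ) := by
        rw [Complex.norm_intCast]
        have h1 := Matrix.det_le (A := H) (abv := AbsoluteValue.abs) (x := (1 : ℤ)) (by
          intro i j
          simp only [H, Matrix.of_apply]
          split_ifs <;> simp)
        rw [Fintype.card_fin, one_pow] at h1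
        have h2 : |dH| ≤ ((n + 1).factorial : ℤ) := by
          simpa using h1
        exact_mod_cast h2
      rw [hα1, hA1, norm_mul, norm_mul, norm_mul, norm_mul, norm_mul]
      have hcn : (1 : ℝ) ≤ c ^ (n + 1) := one_le_pow₀ hc
      calc ‖A 0 0‖ * (‖K‖ * (‖K'‖ * ‖((dH : ℤ) : ℂ)‖)) ≤
          ‖A 0 0‖ * (‖K‖ * (‖K'‖ * ((n + 1).factorial : ℝ))) := by gcongr
        _ = 1 * ((n + 1).factorial : ℝ) * (‖A 0 0‖ * (‖K‖ * (‖K'‖ * 1))) := by ring
        _ ≤ c ^ (n + 1) * ((n + 1).factorial : ℝ) * (‖A 0 0‖ * (‖K‖ * (‖K'‖ *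
            ‖((dJ : ℤ) : ℂ)‖))) := by gcongr

include hc hmul hinv hneg hC in
/-- **Lower bound for the determinant.** -/
theorem det_lower : ∀ (n : ℕ) (A : Matrix (Fin n) (Fin n) ℂ), Good G A → A.det ≠ 0 →
    ∃ σ : Equiv.Perm (Fin n), (∀ i, A i (σ i) ≠ 0) ∧
      ∏ i, ‖A i (σ i)‖ ≤ (∏ k ∈ Finset.range n, (c ^ k * (k.factorial : ℝ))) * ‖A.det‖ := by
  intro n
  induction n with
  | zero =>
    intro A _ _
    exact ⟨Equiv.refl _, fun i => i.elim0, by simp⟩
  | succ n ih =>
    intro A hA hdet
    have hc0 : (0 : ℝ) < c := by linarith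
    have h1 : ∃ i : Fin (n + 1), A i 0 ≠ 0 ∧ (A.submatrix i.succAbove Fin.succ).det ≠ 0 := by
      by_contra hcon
      push Not at hcon
      apply hdet
      rw [Matrix.det_succ_column_zero]
      refine Finset.sum_eq_zero fun i _ => ?_
      by_cases h : A i 0 = 0
      · rw [h]; ring
      · rw [hcon i h]; ring
    obtain ⟨i, hi, hM⟩ := h1
    set M := A.submatrix i.succAbove Fin.succ with hMdef
    obtain ⟨σ', hσ', hprod⟩ := ih M
      (good_sub hA _ _ Fin.succAbove_right_injective (Fin.succ_injective _)) hM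
    set B := A.submatrix (Fin.cycleRange i).symm (Equiv.refl (Fin (n + 1))) with hB
    have b1 : B 0 0 = A i 0 := by
      simp [hB, Fin.cycleRange_symm_zero]
    have b2 : B.submatrix Fin.succ Fin.succ = M := by
      ext k l
      simp [hB, hMdef, Fin.cycleRange_symm_succ]
    have b3 : ‖B.det‖ = ‖A.det‖ := norm_det_perm A _ _
    have hgain := rel_gain G c hc hmul hinv hneg hC n B
      (good_sub hA _ _ (Equiv.injective _) (Equiv.injective _)) (by rw [b1]; exact hi)
      (by rw [b2]; exact hM) (by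
        intro h
        rw [h, norm_zero] at b3
        exact hdet (norm_eq_zero.1 b3.symm))
    rw [b1, b2, b3] at hgain
    let τ : Equiv.Perm (Fin (n + 1)) := Equiv.Perm.decomposeFin.symm (0, σ')
    have t1 : τ 0 = 0 := by simp [τ]
    have t2 : ∀ k : Fin n, τ k.succ = (σ' k).succ := by
      intro k
      simp [τ]
    refine ⟨(Fin.cycleRange i).trans τ, ?_, ?_⟩
    · intro j
      rcases Fin.eq_self_or_eq_succAbove i j with rfl | ⟨k, rfl⟩
      · simp only [Equiv.trans_apply, Fin.cycleRange_self, t1]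
        exact hi
      · simp only [Equiv.trans_apply, Fin.cycleRange_succAbove, t2]
        exact hσ' k
    · rw [Fin.prod_univ_succAbove _ i]
      have e1 : ((Fin.cycleRange i).trans τ) i = 0 := by
        simp only [Equiv.trans_apply, Fin.cycleRange_self, t1]
      have e2 : ∀ k : Fin n, ‖A (i.succAbove k) (((Fin.cycleRange i).trans τ) (i.succAbove k))‖ =
          ‖M k (σ' k)‖ := by
        intro k
        simp only [Equiv.trans_apply, Fin.cycleRange_succAbove, t2]
        rfl
      rw [e1, Finset.prod_congr rfl fun k _ => e2 k, Finset.prod_range_succ]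
      have hκ : 0 ≤ ∏ k ∈ Finset.range n, (c ^ k * (k.factorial : ℝ)) :=
        Finset.prod_nonneg fun k _ => by positivity
      calc ‖A i 0‖ * ∏ k, ‖M k (σ' k)‖ ≤
          ‖A i 0‖ * ((∏ k ∈ Finset.range n, (c ^ k * (k.factorial : ℝ))) * ‖M.det‖) :=
            mul_le_mul_of_nonneg_left hprod (norm_nonneg _)
        _ = (∏ k ∈ Finset.range n, (c ^ k * (k.factorial : ℝ))) * (‖A i 0‖ * ‖M.det‖) := by ring
        _ ≤ (∏ k ∈ Finset.range n, (c ^ k * (k.factorial : ℝ))) *
            (c ^ n * (n.factorial : ℝ) * ‖A.det‖) := mul_le_mul_of_nonneg_left hgain hκ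
        _ = _ := by ring

end

end Pool.Agent.H2Swap
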