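import Mathlib

/-!
# The operators `D` (sum over the sets above) and `U` (sum over the sets below)
-/

set_option autoImplicit false

namespace Pool.Agent.H2Swap

open Finset

variable {E : Type*} [Fintype E] [DecidableEq E]

/-- Sum over the sets with one element more. -/
def D (f : Finset E → ℝ) (C : Finset E) : ℝ := ∑ a ∈ Cᶜ, f (insert a C)

/-- Sum over the sets with one element less. -/
def U (f : Finset E → ℝ) (A : Finset E) : ℝ := ∑ a ∈ A, f (A.erase a)

/-- Exchange of the order of summation. -/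
theorem sum_swap (φ : Finset E → E → ℝ) :
    ∑ C : Finset E, ∑ a ∈ Cᶜ, φ (insert a C) a = ∑ A : Finset E, ∑ a ∈ A, φ A a := by
  rw [Finset.sum_sigma', Finset.sum_sigma']
  refine Finset.sum_bij' (fun p _ => ⟨insert p.2 p.1, p.2⟩) (fun p _ => ⟨p.1.erase p.2, p.2⟩)
    ?_ ?_ ?_ ?_ ?_
  · rintro ⟨C, a⟩ hp
    simp
  · rintro ⟨A, a⟩ hp
    simp
  · rintro ⟨C, a⟩ hp
    simp only [mem_sigma, mem_univ, true_and, mem_compl] at hp
    simp only [erase_insert hp]
  · rintro ⟨A, a⟩ hp
    simp only [mem_sigma, mem_univ, true_and] at hp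
    simp only [insert_erase hp]
  · rintro ⟨C, a⟩ hp
    rfl

theorem adjoint (f h : Finset E → ℝ) :
    ∑ C, D f C * h C = ∑ A, f A * U h A := by
  have h1 := sum_swap (fun (A : Finset E) (a : E) => f A * h (A.erase a))
  have h2 : ∀ C : Finset E, D f C * h C = ∑ a ∈ Cᶜ, f (insert a C) * h ((insert a C).erase a) := by
    intro C
    unfold D
    rw [Finset.sum_mul]
    refine Finset.sum_congr rfl fun a ha => ?_
    rw [erase_insert (mem_compl.1 ha)]
  rw [Finset.sum_congr rfl fun C _ => h2 C, h1]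
  refine Finset.sum_congr rfl fun A _ => ?_
  unfold U
  rw [Finset.mul_sum]

theorem comm (f : Finset E → ℝ) (A : Finset E) :
    D (U f) A = U (D f) A + ((Fintype.card E : ℝ) - 2 * A.card) * f A := by
  have h1 : D (U f) A = ((Fintype.card E : ℝ) - A.card) * f A +
      ∑ a ∈ Aᶜ, ∑ b ∈ A, f (insert a (A.erase b)) := by
    have h2 : ∀ a ∈ Aᶜ, U f (insert a A) = f A + ∑ b ∈ A, f (insert a (A.erase b)) := by
      intro a ha
      rw [mem_compl] at ha
      unfold U
      rw [Finset.sum_insert ha, erase_insert ha]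
      congr 1
      refine Finset.sum_congr rfl fun b hb => ?_
      rw [erase_insert_of_ne (show a ≠ b by rintro rfl; exact ha hb)]
    unfold D
    rw [Finset.sum_congr rfl h2, Finset.sum_add_distrib, Finset.sum_const, card_compl, nsmul_eq_mul,
      Nat.cast_sub (card_le_univ A)]
  have h3 : U (D f) A = (A.card : ℝ) * f A + ∑ b ∈ A, ∑ a ∈ Aᶜ, f (insert a (A.erase b)) := by
    have h2 : ∀ b ∈ A, D f (A.erase b) = f A + ∑ a ∈ Aᶜ, f (insert a (A.erase b)) := by
      intro b hb
      unfold D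
      have e : (A.erase b)ᶜ = insert b Aᶜ := by
        ext x
        simp only [mem_compl, mem_erase, mem_insert, not_and_or, not_not]
      rw [e, Finset.sum_insert (by simpa using hb), insert_erase hb]
    unfold U
    rw [Finset.sum_congr rfl h2, Finset.sum_add_distrib, Finset.sum_const, nsmul_eq_mul]
  rw [h1, h3, Finset.sum_comm]
  ring

theorem norm_U (f : Finset E → ℝ) :
    ∑ A, U f A ^ 2 = ∑ C, D f C ^ 2 +
      ∑ C, ((Fintype.card E : ℝ) - 2 * C.card) * f C ^ 2 := by
  have h1 : ∑ A, U f A ^ 2 = ∑ C, D (U f) C * f C := by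
    rw [adjoint]
    exact Finset.sum_congr rfl fun A _ => sq _
  have h2 : ∑ C, D f C ^ 2 = ∑ A, U (D f) A * f A := by
    rw [Finset.sum_congr rfl fun C _ => sq (D f C), adjoint]
    exact Finset.sum_congr rfl fun A _ => mul_comm _ _
  rw [h1, h2, ← Finset.sum_add_distrib]
  refine Finset.sum_congr rfl fun C _ => ?_
  rw [comm]
  ring

/-- The coefficients. -/
noncomputable def kap (r m : ℕ) : ℝ :=
  (-1) ^ m * (m.factorial : ℝ) * ((r - m - 1).factorial : ℝ) / (r.factorial : ℝ)

theorem kap_zero {r : ℕ} (hr : 0 < r) : (r : ℝ) * kap r 0 = 1 := by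
  unfold kap
  obtain ⟨q, rfl⟩ := Nat.exists_eq_succ_of_ne_zero hr.ne'
  have h1 : ((q + 1).factorial : ℝ) = (q + 1) * q.factorial := by
    rw [Nat.factorial_succ]; push_cast; ring
  have h2 : (q.factorial : ℝ) ≠ 0 := by exact_mod_cast q.factorial_ne_zero
  have h3 : ((q : ℝ) + 1) ≠ 0 := by positivity
  simp only [Nat.succ_eq_add_one, Nat.sub_zero, Nat.add_sub_cancel, pow_zero, Nat.factorial_zero,
    Nat.cast_one, mul_one, one_mul, h1]
  push_cast
  field_simp

theorem kap_mid {r m : ℕ} (h0 : 0 < m) (hm : m < r) :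
    ((r - m : ℕ) : ℝ) * kap r m + (m : ℝ) * kap r (m - 1) = 0 := by
  obtain ⟨p, rfl⟩ := Nat.exists_eq_succ_of_ne_zero h0.ne'
  obtain ⟨q, rfl⟩ := Nat.exists_eq_add_of_lt hm
  unfold kap
  have e1 : p.succ + q + 1 - p.succ = q + 1 := by omega
  have e2 : p.succ + q + 1 - p.succ - 1 = q := by omega
  have e3 : p.succ + q + 1 - (p.succ - 1) - 1 = q + 1 := by omega
  have e4 : p.succ - 1 = p := by omega
  rw [e1, e4]
  have e5 : p.succ + q + 1 - p - 1 = q + 1 := by omega
  have e6 : q + 1 - 1 = q := by omega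
  rw [e5, e6, pow_succ, Nat.factorial_succ q, Nat.factorial_succ p]
  push_cast
  ring

theorem kap_top {r : ℕ} (hr : 0 < r) : (r : ℝ) * kap r (r - 1) = -(-1) ^ r := by
  unfold kap
  obtain ⟨q, rfl⟩ := Nat.exists_eq_succ_of_ne_zero hr.ne'
  have h1 : ((q + 1).factorial : ℝ) = (q + 1) * q.factorial := by
    rw [Nat.factorial_succ]; push_cast; ring
  have h2 : (q.factorial : ℝ) ≠ 0 := by exact_mod_cast q.factorial_ne_zero
  have h3 : ((q : ℝ) + 1) ≠ 0 := by positivity
  have e : q + 1 - q - 1 = 0 := by omega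
  simp only [Nat.succ_eq_add_one, Nat.add_sub_cancel, e, Nat.factorial_zero, Nat.cast_one, mul_one,
    h1, pow_succ]
  push_cast
  field_simp

theorem kap_sum {r : ℕ} (hr : 0 < r) (A B : Finset E) (hA : A.card = r) (hB : B.card = r)
    (hE : Fintype.card E = 2 * r) :
    ∑ a ∈ A, kap r ((A.erase a) \ B).card =
      (if B = A then 1 else 0) - (-1) ^ r * (if B = Aᶜ then 1 else 0) := by
  set m := (A \ B).card with hm
  have h1 : ∀ a ∈ A ∩ B, kap r ((A.erase a) \ B).card = kap r m := by
    intro a ha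
    congr 2
    ext x
    simp only [mem_sdiff, mem_erase]
    constructor
    · rintro ⟨⟨_, h⟩, h'⟩; exact ⟨h, h'⟩
    · rintro ⟨h, h'⟩; exact ⟨⟨fun hx => h' (hx ▸ (mem_inter.1 ha).2), h⟩, h'⟩
  have h2 : ∀ a ∈ A \ B, kap r ((A.erase a) \ B).card = kap r (m - 1) := by
    intro a ha
    congr 1
    rw [hm, ← card_erase_of_mem ha]
    congr 1
    ext x
    simp only [mem_sdiff, mem_erase]
    tauto
  have h3 : (A ∩ B).card = r - m := by
    have := card_inter_add_card_sdiff A B
    omega
  have hmr : m ≤ r := by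
    rw [hm, ← hA]; exact card_le_card sdiff_subset
  have h4 : ∑ a ∈ A, kap r ((A.erase a) \ B).card =
      ((r - m : ℕ) : ℝ) * kap r m + (m : ℝ) * kap r (m - 1) := by
    rw [← Finset.sum_inter_add_sum_sdiff A B, Finset.sum_congr rfl h1, Finset.sum_congr rfl h2,
      Finset.sum_const, Finset.sum_const, h3, nsmul_eq_mul, nsmul_eq_mul]
  rw [h4]
  rcases Nat.eq_zero_or_pos m with h0 | h0
  · have e1 : B = A := by
      have : A ⊆ B := sdiff_eq_empty_iff_subset.1 (card_eq_zero.1 (hm.symm.trans h0))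
      exact (Finset.eq_of_subset_of_card_le this (by omega)).symm
    have e2 : B ≠ Aᶜ := by
      rw [e1]
      intro h
      have hA' : A.Nonempty := card_pos.1 (by omega)
      obtain ⟨x, hx⟩ := hA'
      have : x ∈ Aᶜ := h ▸ hx
      exact (mem_compl.1 this) hx
    rw [if_pos e1, if_neg e2, h0]
    simp only [Nat.sub_zero, Nat.cast_zero, zero_mul, add_zero, mul_zero, sub_zero]
    exact kap_zero hr
  · have e1 : B ≠ A := by
      rintro rfl
      simp [hm] at h0
    rcases lt_or_eq_of_le hmr with h5 | h5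
    · have e2 : B ≠ Aᶜ := by
        rintro rfl
        have : A \ Aᶜ = A := by
          ext x; simp
        rw [this] at hm
        omega
      rw [if_neg e1, if_neg e2, kap_mid h0 h5]
      ring
    · have e2 : B = Aᶜ := by
        have h6 : A ∩ B = ∅ := card_eq_zero.1 (by omega)
        have h7 : B ⊆ Aᶜ := fun x hx => mem_compl.2 fun hxA => by
          have : x ∈ A ∩ B := mem_inter.2 ⟨hxA, hx⟩
          rw [h6] at this
          exact notMem_empty x this
        refine Finset.eq_of_subset_of_card_le h7 ?_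
        rw [card_compl, hE]
        omega
      rw [if_neg e1, if_pos e2, h5, kap_top hr, Nat.sub_self]
      simp

end Pool.Agent.H2Swap
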