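import Pool.Agent.H2Swap.Key

/-!
# The mass doubles every `r` steps
-/

set_option autoImplicit false

namespace Pool.Agent.H2Swap

open Finset Classical

variable {E : Type*} [Fintype E] [DecidableEq E]

/-- The number of the radii `k, ..., k + L - 1` whose ball contains `A`. -/
noncomputable def rho (R : ℕ → Finset E → Prop) (k L : ℕ) (A : Finset E) : ℕ :=
  ((range L).filter fun j => R (k + j) A).card

theorem mono {R : ℕ → Finset E → Prop} (hmono : ∀ k A, R k A → R (k + 1) A) {i j : ℕ}
    (hij : i ≤ j) {A : Finset E} (h : R i A) : R j A := by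
  induction hij with
  | refl => exact h
  | step _ ih => exact hmono _ _ ih

theorem rho_full {R : ℕ → Finset E → Prop} (hmono : ∀ k A, R k A → R (k + 1) A) {k L : ℕ}
    {A : Finset E} (h : R k A) : rho R k L A = L := by
  unfold rho
  rw [filter_true_of_mem fun j _ => mono hmono (Nat.le_add_right k j) h, card_range]

/-- The clique bound. -/
theorem clique {r : ℕ} (hE : Fintype.card E = 2 * r) (G : Finset E → ℝ)
    (hG : ∀ A, G A ≠ 0 → A.card = r) (hrel : ∀ C, D G C = 0)
    (R : ℕ → Finset E → Prop) (hmono : ∀ k A, R k A → R (k + 1) A)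
    (hstep : ∀ k C a b, a ∉ C → b ∉ C → R k (insert a C) → G (insert b C) ≠ 0 →
      R (k + 1) (insert b C)) (k L : ℕ) (C : Finset E) :
    D (fun A => (rho R k L A : ℝ) * G A) C ^ 2 ≤
      r * ∑ a ∈ Cᶜ, (if R (k + L) (insert a C) ∧ ¬ R k (insert a C) then G (insert a C) ^ 2
        else 0) := by
  have hnn : 0 ≤ ∑ a ∈ Cᶜ, (if R (k + L) (insert a C) ∧ ¬ R k (insert a C) then
      G (insert a C) ^ 2 else 0) := by
    refine Finset.sum_nonneg fun a _ => ?_
    split_ifs
    · exact sq_nonneg _
    · exact le_rfl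
  have hz : D (fun A => (rho R k L A : ℝ) * G A) C = 0 →
      D (fun A => (rho R k L A : ℝ) * G A) C ^ 2 ≤
      r * ∑ a ∈ Cᶜ, (if R (k + L) (insert a C) ∧ ¬ R k (insert a C) then G (insert a C) ^ 2
        else 0) := by
    intro h
    rw [h]
    have : (0 : ℝ) ≤ r := Nat.cast_nonneg r
    nlinarith [mul_nonneg this hnn]
  by_cases hC : C.card + 1 = r
  swap
  · apply hz
    refine Finset.sum_eq_zero fun a ha => ?_
    have : G (insert a C) = 0 := by
      by_contra hc
      exact hC (by rw [← hG _ hc, card_insert_of_notMem (mem_compl.1 ha)])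
    change (rho R k L (insert a C) : ℝ) * G (insert a C) = 0
    rw [this, mul_zero]
  by_cases hex : ∃ i, ∃ a, a ∉ C ∧ R i (insert a C)
  swap
  · apply hz
    push Not at hex
    refine Finset.sum_eq_zero fun a ha => ?_
    have : rho R k L (insert a C) = 0 := by
      unfold rho
      rw [filter_false_of_mem fun j _ => hex _ a (mem_compl.1 ha), card_empty]
    change (rho R k L (insert a C) : ℝ) * G (insert a C) = 0
    rw [this, Nat.cast_zero, zero_mul]
  -- the first radius which meets the clique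
  set i := Nat.find hex with hi
  obtain ⟨a₀, ha₀, hRa⟩ := Nat.find_spec hex
  rw [← hi] at hRa
  have hmin : ∀ j, j < i → ∀ b, b ∉ C → ¬ R j (insert b C) := by
    intro j hj b hb hR
    exact Nat.find_min hex hj ⟨b, hb, hR⟩
  have hall : ∀ b, b ∉ C → G (insert b C) ≠ 0 → R (i + 1) (insert b C) := fun b hb h =>
    hstep i C a₀ b ha₀ hb hRa h
  -- the value of rho on the clique
  have hrho : ∀ b, b ∉ C → G (insert b C) ≠ 0 → (rho R k L (insert b C) : ℝ) =
      ((range L).filter fun j => i + 1 ≤ k + j).card +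
        (if k ≤ i ∧ i < k + L ∧ R i (insert b C) then 1 else 0) := by
    intro b hb h
    have e : (range L).filter (fun j => R (k + j) (insert b C)) =
        ((range L).filter fun j => i + 1 ≤ k + j) ∪
          ((range L).filter fun j => k + j = i ∧ R i (insert b C)) := by
      ext j
      simp only [mem_filter, mem_union, mem_range]
      constructor
      · rintro ⟨h1, h2⟩
        rcases lt_trichotomy (k + j) i with h3 | h3 | h3
        · exact absurd h2 (hmin _ h3 b hb)
        · exact Or.inr ⟨h1, h3, h3 ▸ h2⟩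
        · exact Or.inl ⟨h1, h3⟩
      · rintro (⟨h1, h2⟩ | ⟨h1, h2, h3⟩)
        · exact ⟨h1, mono hmono h2 (hall b hb h)⟩
        · exact ⟨h1, h2 ▸ h3⟩
    have hd : Disjoint ((range L).filter fun j => i + 1 ≤ k + j)
        ((range L).filter fun j => k + j = i ∧ R i (insert b C)) := by
      refine Finset.disjoint_left.2 fun j h1 h2 => ?_
      have h3 := (mem_filter.1 h1).2
      have h4 := (mem_filter.1 h2).2.1
      omega
    have hc : ((range L).filter fun j => k + j = i ∧ R i (insert b C)).card =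
        if k ≤ i ∧ i < k + L ∧ R i (insert b C) then 1 else 0 := by
      split_ifs with h1
      · rw [card_eq_one]
        refine ⟨i - k, ?_⟩
        ext j
        simp only [mem_filter, mem_range, mem_singleton]
        constructor
        · rintro ⟨_, h2, _⟩; omega
        · intro h2
          exact ⟨by omega, by omega, h1.2.2⟩
      · rw [card_eq_zero, filter_eq_empty_iff]
        intro j hj h2
        rw [mem_range] at hj
        exact h1 ⟨by omega, by omega, h2.2⟩
    unfold rho
    rw [e, card_union_of_disjoint hd, hc]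
    push_cast
    rfl
  have hD : D (fun A => (rho R k L A : ℝ) * G A) C =
      ∑ b ∈ Cᶜ, (if k ≤ i ∧ i < k + L ∧ R i (insert b C) then G (insert b C) else 0) := by
    have h1 : ∀ b ∈ Cᶜ, (rho R k L (insert b C) : ℝ) * G (insert b C) =
        (((range L).filter fun j => i + 1 ≤ k + j).card : ℝ) * G (insert b C) +
        (if k ≤ i ∧ i < k + L ∧ R i (insert b C) then G (insert b C) else 0) := by
      intro b hb
      rw [mem_compl] at hb
      by_cases h : G (insert b C) = 0
      · rw [h]; simp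
      · rw [hrho b hb h]
        split_ifs <;> ring
    have h2 : ∑ b ∈ Cᶜ, G (insert b C) = 0 := hrel C
    unfold D
    rw [Finset.sum_congr rfl h1, Finset.sum_add_distrib, ← Finset.mul_sum, h2, mul_zero, zero_add]
  by_cases hki : k ≤ i ∧ i < k + L
  swap
  · apply hz
    rw [hD]
    refine Finset.sum_eq_zero fun b _ => if_neg fun h => hki ⟨h.1, h.2.1⟩
  -- the partial sum and its complement
  set T := Cᶜ.filter (fun b => ¬ R i (insert b C) ∧ G (insert b C) ≠ 0) with hT
  have hD2 : D (fun A => (rho R k L A : ℝ) * G A) C = -∑ b ∈ T, G (insert b C) := by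
    have h1 : ∀ b ∈ Cᶜ, G (insert b C) =
        (if k ≤ i ∧ i < k + L ∧ R i (insert b C) then G (insert b C) else 0) +
        (if ¬ R i (insert b C) ∧ G (insert b C) ≠ 0 then G (insert b C) else 0) := by
      intro b _
      by_cases h2 : R i (insert b C)
      · rw [if_pos ⟨hki.1, hki.2, h2⟩, if_neg (fun h => h.1 h2), add_zero]
      · rw [if_neg (fun h => h2 h.2.2), zero_add]
        by_cases h3 : G (insert b C) = 0
        · rw [h3]; simp
        · rw [if_pos ⟨h2, h3⟩]
    have h2 : ∑ b ∈ Cᶜ, G (insert b C) = 0 := hrel C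
    rw [Finset.sum_congr rfl h1, Finset.sum_add_distrib, ← hD, ← Finset.sum_filter] at h2
    linarith
  have hTc : T.card ≤ r := by
    have h1 : T ⊆ Cᶜ.erase a₀ := by
      intro b hb
      rw [hT, mem_filter] at hb
      exact mem_erase.2 ⟨fun h => hb.2.1 (h ▸ hRa), hb.1⟩
    have h2 := card_le_card h1
    rw [card_erase_of_mem (mem_compl.2 ha₀), card_compl, hE] at h2
    omega
  have hcs : (∑ b ∈ T, G (insert b C)) ^ 2 ≤ T.card * ∑ b ∈ T, G (insert b C) ^ 2 :=
    sq_sum_le_card_mul_sum_sq
  have hTs : ∑ b ∈ T, G (insert b C) ^ 2 ≤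
      ∑ a ∈ Cᶜ, (if R (k + L) (insert a C) ∧ ¬ R k (insert a C) then G (insert a C) ^ 2
        else 0) := by
    rw [← Finset.sum_filter]
    refine Finset.sum_le_sum_of_subset_of_nonneg ?_ fun b _ _ => sq_nonneg _
    intro b hb
    rw [hT, mem_filter] at hb
    rw [mem_filter]
    refine ⟨hb.1, ?_, fun h => hb.2.1 (mono hmono hki.1 h)⟩
    exact mono hmono (show i + 1 ≤ k + L by omega) (hall b (mem_compl.1 hb.1) hb.2.2)
  rw [hD2, neg_sq]
  have h0 : 0 ≤ ∑ b ∈ T, G (insert b C) ^ 2 := Finset.sum_nonneg fun b _ => sq_nonneg _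
  calc (∑ b ∈ T, G (insert b C)) ^ 2 ≤ T.card * ∑ b ∈ T, G (insert b C) ^ 2 := hcs
    _ ≤ r * ∑ b ∈ T, G (insert b C) ^ 2 :=
        mul_le_mul_of_nonneg_right (by exact_mod_cast hTc) h0
    _ ≤ _ := mul_le_mul_of_nonneg_left hTs (Nat.cast_nonneg r)

/-- **The mass doubles every `r` steps.** -/
theorem double {r : ℕ} (hr : 0 < r) (hE : Fintype.card E = 2 * r) (G : Finset E → ℝ)
    (hG : ∀ A, G A ≠ 0 → A.card = r) (hrel : ∀ C, D G C = 0)
    (R : ℕ → Finset E → Prop) (hmono : ∀ k A, R k A → R (k + 1) A)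
    (hstep : ∀ k C a b, a ∉ C → b ∉ C → R k (insert a C) → G (insert b C) ≠ 0 →
      R (k + 1) (insert b C))
    (k : ℕ) (hdis : ∀ A, ¬ (R (k + r) A ∧ R (k + r) Aᶜ)) :
    2 * ∑ A, (if R k A then G A ^ 2 else 0) ≤ ∑ A, (if R (k + r) A then G A ^ 2 else 0) := by
  set f : Finset E → ℝ := fun A => (rho R k r A : ℝ) * G A with hf
  have hpos : ∀ A, f A ≠ 0 → R (k + r) A := by
    intro A hA
    have h1 : rho R k r A ≠ 0 := by
      intro h
      apply hA
      change (rho R k r A : ℝ) * G A = 0
      rw [h, Nat.cast_zero, zero_mul]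
    obtain ⟨j, hj⟩ := card_pos.1 (Nat.pos_of_ne_zero h1)
    rw [mem_filter, mem_range] at hj
    exact mono hmono (by omega) hj.2
  have h1 := key hr hE f (fun A hA => hG A fun h => hA (by
      change (rho R k r A : ℝ) * G A = 0
      rw [h, mul_zero])) (fun A => by
      by_contra hc
      push Not at hc
      exact hdis A ⟨hpos A hc.1, hpos Aᶜ hc.2⟩)
  have h2 : (r : ℝ) ^ 2 * ∑ A, (if R k A then G A ^ 2 else 0) ≤ ∑ A, f A ^ 2 := by
    rw [Finset.mul_sum]
    refine Finset.sum_le_sum fun A _ => ?_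
    split_ifs with h
    · change _ ≤ ((rho R k r A : ℝ) * G A) ^ 2
      rw [rho_full hmono h]
      exact le_of_eq (by ring)
    · rw [mul_zero]
      exact sq_nonneg _
  have h3 : ∑ C, D f C ^ 2 ≤ (r : ℝ) ^ 2 *
      ∑ A, (if R (k + r) A ∧ ¬ R k A then G A ^ 2 else 0) := by
    calc ∑ C, D f C ^ 2 ≤ ∑ C : Finset E, r * ∑ a ∈ Cᶜ,
          (if R (k + r) (insert a C) ∧ ¬ R k (insert a C) then G (insert a C) ^ 2 else 0) :=
          Finset.sum_le_sum fun C _ => clique hE G hG hrel R hmono hstep k r C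
      _ = r * ∑ A : Finset E, ∑ a ∈ A,
          (if R (k + r) A ∧ ¬ R k A then G A ^ 2 else 0) := by
          rw [← Finset.mul_sum, ← sum_swap (fun (A : Finset E) (_ : E) =>
            (if R (k + r) A ∧ ¬ R k A then G A ^ 2 else 0))]
      _ = (r : ℝ) ^ 2 * ∑ A, (if R (k + r) A ∧ ¬ R k A then G A ^ 2 else 0) := by
          rw [sq, mul_assoc, Finset.mul_sum (a := (r : ℝ)) (s := univ)
            (f := fun A : Finset E => (if R (k + r) A ∧ ¬ R k A then G A ^ 2 else 0))]
          congr 1
          refine Finset.sum_congr rfl fun A _ => ?_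
          rw [Finset.sum_const, nsmul_eq_mul]
          by_cases h : G A = 0
          · rw [h]; simp
          · rw [hG A h]
  have h4 : ∑ A, (if R (k + r) A ∧ ¬ R k A then G A ^ 2 else 0) =
      ∑ A, (if R (k + r) A then G A ^ 2 else 0) - ∑ A, (if R k A then G A ^ 2 else 0) := by
    rw [← Finset.sum_sub_distrib]
    refine Finset.sum_congr rfl fun A _ => ?_
    by_cases h5 : R k A
    · have h6 : R (k + r) A := mono hmono (Nat.le_add_right k r) h5
      rw [if_neg (fun h => h.2 h5), if_pos h6, if_pos h5, sub_self]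
    · by_cases h6 : R (k + r) A
      · rw [if_pos ⟨h6, h5⟩, if_pos h6, if_neg h5, sub_zero]
      · rw [if_neg (fun h => h6 h.1), if_neg h6, if_neg h5, sub_zero]
  rw [h4] at h3
  have h5 : (0 : ℝ) < (r : ℝ) ^ 2 := by positivity
  have h6 : (r : ℝ) ^ 2 * ∑ A, (if R k A then G A ^ 2 else 0) ≤ (r : ℝ) ^ 2 *
      (∑ A, (if R (k + r) A then G A ^ 2 else 0) - ∑ A, (if R k A then G A ^ 2 else 0)) :=
    h2.trans (h1.trans h3)
  have h7 := le_of_mul_le_mul_left h6 h5
  linarith

end Pool.Agent.H2Swap
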