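import Pool.Agent.H2Swap.Path

/-!
# Short walks in the support of a harmonic function, exponential weights (helper23's form)
-/

set_option autoImplicit false

namespace Pool.Agent.H2Swap

open Finset Classical

variable {E : Type*} [Fintype E] [DecidableEq E]

/-- `A` can be reached from `S`. -/
def Reach (F : Finset E → ℂ) (S A : Finset E) : Prop := ∃ n, Walk F n S A

/-- The weight `t ^ d`, `d` the distance from `S`. -/
noncomputable def wt (F : Finset E → ℂ) (S : Finset E) (t : ℝ) (A : Finset E) : ℝ :=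
  if h : Reach F S A then t ^ (Nat.find h) else 0

theorem wt_nonneg (F : Finset E → ℂ) (S : Finset E) {t : ℝ} (ht : 0 ≤ t) (A : Finset E) :
    0 ≤ wt F S t A := by
  unfold wt
  split_ifs
  · positivity
  · exact le_rfl

theorem reach_ne {F : Finset E → ℂ} {S : Finset E} (hS : F S ≠ 0) {A : Finset E}
    (h : Reach F S A) : F A ≠ 0 := by
  obtain ⟨n, h1⟩ := h
  exact Ball.ne hS ⟨n, le_rfl, h1⟩

/-- On a clique the weights are those of two consecutive distances. -/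
theorem wt_clique {F : Finset E → ℂ} {S : Finset E} (hS : F S ≠ 0) {t : ℝ} (ht : 0 < t)
    (C : Finset E) :
    ∃ μ : ℝ, ∀ b, b ∉ C → F (insert b C) ≠ 0 →
      (wt F S t (insert b C) - μ) ^ 2 = (((1 - t) / (1 + t)) * wt F S t (insert b C)) ^ 2 := by
  by_cases hex : ∃ i, ∃ a, a ∉ C ∧ Walk F i S (insert a C)
  swap
  · refine ⟨0, fun b hb _ => ?_⟩
    push Not at hex
    have : wt F S t (insert b C) = 0 := dif_neg fun ⟨n, hn⟩ => hex n b hb hn
    rw [this]
    ring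
  set i := Nat.find hex with hi
  obtain ⟨a₀, ha₀, hRa⟩ := Nat.find_spec hex
  rw [← hi] at hRa
  refine ⟨t ^ i * (2 * t / (1 + t)), fun b hb hF => ?_⟩
  have h0 : F (insert a₀ C) ≠ 0 := reach_ne hS ⟨i, hRa⟩
  have hreach : Reach F S (insert b C) ∧ ∀ h : Reach F S (insert b C), Nat.find h ≤ i + 1 := by
    rcases eq_or_ne b a₀ with rfl | hab
    · exact ⟨⟨i, hRa⟩, fun h => (Nat.find_min' h hRa).trans (Nat.le_succ i)⟩
    · have h1 : Walk F (i + 1) S (insert b C) := by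
        refine ⟨_, hRa, h0, hF, a₀, mem_insert_self _ _, b, ?_, ?_⟩
        · rw [mem_insert, not_or]
          exact ⟨hab, hb⟩
        · rw [erase_insert ha₀]
      exact ⟨⟨i + 1, h1⟩, fun h => Nat.find_min' h h1⟩
  obtain ⟨hr, hle⟩ := hreach
  have hge : i ≤ Nat.find hr := by
    by_contra hc
    push Not at hc
    exact Nat.find_min hex hc ⟨b, hb, Nat.find_spec hr⟩
  have hwt : wt F S t (insert b C) = t ^ (Nat.find hr) := dif_pos hr
  have h1t : (1 + t) ≠ 0 := by positivity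
  rcases Nat.lt_or_ge (Nat.find hr) (i + 1) with h1 | h1
  · have h2 : Nat.find hr = i := by omega
    rw [hwt, h2]
    have : t ^ i - t ^ i * (2 * t / (1 + t)) = ((1 - t) / (1 + t)) * t ^ i := by
      field_simp
      ring
    rw [this]
  · have h2 : Nat.find hr = i + 1 := le_antisymm (hle hr) h1
    rw [hwt, h2]
    have : t ^ (i + 1) - t ^ i * (2 * t / (1 + t)) = -(((1 - t) / (1 + t)) * t ^ (i + 1)) := by
      rw [pow_succ]
      field_simp
      ring
    rw [this, neg_sq]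

/-- The inequality for a real harmonic function `G` with support in the support of `F`. -/
theorem real_part {r : ℕ} (hr : 0 < r) (hE : Fintype.card E = 2 * r) (F : Finset E → ℂ)
    (hF : ∀ A, F A ≠ 0 → A.card = r) (hcompl : ∀ A, F A ≠ 0 → F Aᶜ ≠ 0)
    (S : Finset E) (hS : F S ≠ 0) (G : Finset E → ℝ) (hG : ∀ A, G A ≠ 0 → F A ≠ 0)
    (hrel : ∀ C, D G C = 0) (l : ℕ) (hl : ∀ n, Walk F n S Sᶜ → l ≤ n) :
    G S ^ 2 ≤ (r + 1) * ((r / (r + 2) : ℝ) ^ l * ∑ A, G A ^ 2) := by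
  set t : ℝ := r / (r + 2) with ht
  have hr' : (0 : ℝ) < r := by exact_mod_cast hr
  have ht0 : 0 < t := by positivity
  have ht1 : t ≤ 1 := by
    rw [ht, div_le_one (by positivity)]
    linarith
  have htc : (1 - t) / (1 + t) = 1 / (r + 1) := by
    rw [ht]
    field_simp
    ring
  set f : Finset E → ℝ := fun A => wt F S t A * G A with hf
  have hfc : ∀ A, f A ≠ 0 → A.card = r := fun A hA => hF A (hG A fun h => hA (by
    change wt F S t A * G A = 0
    rw [h, mul_zero]))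
  -- clique bound
  have hcl : ∀ C, D f C ^ 2 ≤ (1 / (r + 1)) * ∑ a ∈ Cᶜ, f (insert a C) ^ 2 := by
    intro C
    have hnn : 0 ≤ ∑ a ∈ Cᶜ, f (insert a C) ^ 2 := Finset.sum_nonneg fun a _ => sq_nonneg _
    by_cases hC : C.card + 1 = r
    swap
    · have h1 : D f C = 0 := by
        refine Finset.sum_eq_zero fun a ha => ?_
        by_contra hc
        exact hC (by rw [← hfc _ hc, card_insert_of_notMem (mem_compl.1 ha)])
      rw [h1]
      have : (0 : ℝ) ≤ 1 / (r + 1) := by positivity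
      nlinarith [mul_nonneg this hnn]
    obtain ⟨μ, hμ⟩ := wt_clique hS ht0 C
    have h1 : D f C = ∑ a ∈ Cᶜ, (wt F S t (insert a C) - μ) * G (insert a C) := by
      have h2 : ∑ a ∈ Cᶜ, G (insert a C) = 0 := hrel C
      have h3 : ∑ a ∈ Cᶜ, (wt F S t (insert a C) - μ) * G (insert a C) =
          ∑ a ∈ Cᶜ, wt F S t (insert a C) * G (insert a C) - μ * ∑ a ∈ Cᶜ, G (insert a C) := by
        rw [Finset.mul_sum, ← Finset.sum_sub_distrib]
        exact Finset.sum_congr rfl fun a _ => by ring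
      rw [h3, h2, mul_zero, sub_zero]
      rfl
    have h2 : ∀ a ∈ Cᶜ, ((wt F S t (insert a C) - μ) * G (insert a C)) ^ 2 =
        (1 / (r + 1)) ^ 2 * f (insert a C) ^ 2 := by
      intro a ha
      by_cases h : G (insert a C) = 0
      · change _ = (1 / (r + 1)) ^ 2 * (wt F S t (insert a C) * G (insert a C)) ^ 2
        rw [h]; ring
      · have h3 := hμ a (mem_compl.1 ha) (hG _ h)
        rw [htc] at h3
        change _ = (1 / (r + 1)) ^ 2 * (wt F S t (insert a C) * G (insert a C)) ^ 2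
        rw [mul_pow, h3]
        ring
    have h3 : (D f C) ^ 2 ≤ (Cᶜ.card : ℝ) *
        ∑ a ∈ Cᶜ, ((wt F S t (insert a C) - μ) * G (insert a C)) ^ 2 := by
      rw [h1]
      exact sq_sum_le_card_mul_sum_sq
    have h4 : (Cᶜ.card : ℝ) = r + 1 := by
      have : Cᶜ.card = r + 1 := by
        rw [card_compl, hE]; omega
      rw [this]; push_cast; ring
    rw [Finset.sum_congr rfl h2, ← Finset.mul_sum, h4] at h3
    calc D f C ^ 2 ≤ (r + 1) * ((1 / (r + 1)) ^ 2 * ∑ a ∈ Cᶜ, f (insert a C) ^ 2) := h3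
      _ = (1 / (r + 1)) * ∑ a ∈ Cᶜ, f (insert a C) ^ 2 := by
        field_simp
  have hD : ∑ C, D f C ^ 2 ≤ (1 / (r + 1)) * (r * ∑ A, f A ^ 2) := by
    calc ∑ C, D f C ^ 2 ≤ ∑ C : Finset E, (1 / (r + 1)) * ∑ a ∈ Cᶜ, f (insert a C) ^ 2 :=
          Finset.sum_le_sum fun C _ => hcl C
      _ = (1 / (r + 1)) * ∑ A : Finset E, ∑ a ∈ A, f A ^ 2 := by
          rw [← Finset.mul_sum, ← sum_swap (fun (A : Finset E) (_ : E) => f A ^ 2)]
      _ = (1 / (r + 1)) * (r * ∑ A, f A ^ 2) := by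
          congr 1
          rw [Finset.mul_sum]
          refine Finset.sum_congr rfl fun A _ => ?_
          rw [Finset.sum_const, nsmul_eq_mul]
          by_cases h : f A = 0
          · rw [h]; simp
          · rw [hfc A h]
  have hg := sum_g hr hE f hfc
  have h3 : ((-1 : ℝ) ^ r) ^ 2 = 1 := by
    rw [← pow_mul, mul_comm, pow_mul]; norm_num
  have hexp : ∑ A, (f A - (-1) ^ r * f Aᶜ) ^ 2 =
      2 * ∑ A, f A ^ 2 - 2 * ∑ A, (-1) ^ r * (f A * f Aᶜ) := by
    have h4 : ∀ A, (f A - (-1) ^ r * f Aᶜ) ^ 2 =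
        f A ^ 2 + f Aᶜ ^ 2 - 2 * ((-1) ^ r * (f A * f Aᶜ)) := by
      intro A
      calc (f A - (-1) ^ r * f Aᶜ) ^ 2 =
          f A ^ 2 + ((-1 : ℝ) ^ r) ^ 2 * f Aᶜ ^ 2 - 2 * ((-1) ^ r * (f A * f Aᶜ)) := by ring
        _ = _ := by rw [h3]; ring
    rw [Finset.sum_congr rfl fun A _ => h4 A, Finset.sum_sub_distrib, Finset.sum_add_distrib,
      sum_compl' (fun A => f A ^ 2), ← Finset.mul_sum]
    ring
  -- the mirror term
  have hmir : ∀ A, (-1) ^ r * (f A * f Aᶜ) ≤ t ^ l * G A ^ 2 := by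
    intro A
    have hm := mirror hr hE G (fun A h => hF A (hG A h)) hrel A
    have e1 : (-1) ^ r * (f A * f Aᶜ) = wt F S t A * wt F S t Aᶜ * G A ^ 2 := by
      change (-1) ^ r * ((wt F S t A * G A) * (wt F S t Aᶜ * G Aᶜ)) = _
      calc (-1) ^ r * ((wt F S t A * G A) * (wt F S t Aᶜ * G Aᶜ)) =
          wt F S t A * wt F S t Aᶜ * (G A * ((-1) ^ r * G Aᶜ)) := by ring
        _ = _ := by rw [← hm]; ring
    rw [e1]
    refine mul_le_mul_of_nonneg_right ?_ (sq_nonneg _)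
    by_cases h1 : Reach F S A
    · by_cases h2 : Reach F S Aᶜ
      · have w1 : wt F S t A = t ^ (Nat.find h1) := dif_pos h1
        have w2 : wt F S t Aᶜ = t ^ (Nat.find h2) := dif_pos h2
        rw [w1, w2, ← pow_add]
        refine pow_le_pow_of_le_one ht0.le ht1 ?_
        have k1 := ((Nat.find_spec h1).compl hcompl).symm
        have k2 := (Nat.find_spec h2).trans k1
        have k3 := hl _ k2
        omega
      · have : wt F S t Aᶜ = 0 := dif_neg h2
        rw [this, mul_zero]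
        positivity
    · have : wt F S t A = 0 := dif_neg h1
      rw [this, zero_mul]
      positivity
  have hmir2 : ∑ A, (-1) ^ r * (f A * f Aᶜ) ≤ t ^ l * ∑ A, G A ^ 2 := by
    rw [Finset.mul_sum]
    exact Finset.sum_le_sum fun A _ => hmir A
  have hfS : G S ^ 2 ≤ ∑ A, f A ^ 2 := by
    have h1 : wt F S t S = 1 := by
      have hR : Reach F S S := ⟨0, rfl⟩
      have h2 : Nat.find hR = 0 := by
        rw [Nat.find_eq_zero]
        rfl
      have h4 : wt F S t S = t ^ (Nat.find hR) := dif_pos hR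
      rw [h4, h2, pow_zero]
    have h2 : f S ^ 2 ≤ ∑ A, f A ^ 2 :=
      Finset.single_le_sum (f := fun A => f A ^ 2) (fun A _ => sq_nonneg _) (mem_univ S)
    have h4 : f S = G S := by
      change wt F S t S * G S = G S
      rw [h1, one_mul]
    rwa [h4] at h2
  rw [hexp] at hg
  have hpos : (0 : ℝ) < r + 1 := by positivity
  have e2 : (1 / (r + 1 : ℝ)) * (r * ∑ A, f A ^ 2) = ∑ A, f A ^ 2 - (∑ A, f A ^ 2) / (r + 1) := by
    field_simp
    ring
  rw [e2] at hD
  have h5 : (∑ A, f A ^ 2) / (r + 1) ≤ t ^ l * ∑ A, G A ^ 2 := by linarith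
  rw [div_le_iff₀ hpos] at h5
  calc G S ^ 2 ≤ ∑ A, f A ^ 2 := hfS
    _ ≤ (t ^ l * ∑ A, G A ^ 2) * (r + 1) := h5
    _ = _ := by ring

/-- **Short walks.** -/
theorem short_walk {r : ℕ} (hr : 0 < r) (hE : Fintype.card E = 2 * r) (F : Finset E → ℂ)
    (hF : ∀ A, F A ≠ 0 → A.card = r) (hrel : ∀ C : Finset E, ∑ a ∈ Cᶜ, F (insert a C) = 0)
    (S : Finset E) (hS : F S ≠ 0) :
    ∃ n : ℕ, (1 + 2 / (r : ℝ)) ^ n * ‖F S‖ ^ 2 ≤ (r + 1) * ∑ A, ‖F A‖ ^ 2 ∧
      ∃ c : ℕ → Finset E, c 0 = S ∧ c n = Sᶜ ∧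
        ∀ i < n, F (c i) ≠ 0 ∧ F (c (i + 1)) ≠ 0 ∧
          ∃ a ∈ c i, ∃ b, b ∉ c i ∧ c (i + 1) = insert b ((c i).erase a) := by
  let F1 : Finset E → ℝ := fun A => (F A).re
  let F2 : Finset E → ℝ := fun A => (F A).im
  have hF1 : ∀ A, F1 A ≠ 0 → F A ≠ 0 := fun A h hc => h (by
    change (F A).re = 0
    rw [hc, Complex.zero_re])
  have hF2 : ∀ A, F2 A ≠ 0 → F A ≠ 0 := fun A h hc => h (by
    change (F A).im = 0
    rw [hc, Complex.zero_im])
  have hD1 : ∀ C, D F1 C = 0 := by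
    intro C
    have := congrArg Complex.re (hrel C)
    rw [Complex.re_sum, Complex.zero_re] at this
    exact this
  have hD2 : ∀ C, D F2 C = 0 := by
    intro C
    have := congrArg Complex.im (hrel C)
    rw [Complex.im_sum, Complex.zero_im] at this
    exact this
  have hcompl : ∀ A, F A ≠ 0 → F Aᶜ ≠ 0 := by
    intro A hA hc
    apply hA
    have m1 := mirror hr hE F1 (fun A h => hF A (hF1 A h)) hD1 A
    have m2 := mirror hr hE F2 (fun A h => hF A (hF2 A h)) hD2 A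
    have e1 : F1 Aᶜ = 0 := by change (F Aᶜ).re = 0; rw [hc, Complex.zero_re]
    have e2 : F2 Aᶜ = 0 := by change (F Aᶜ).im = 0; rw [hc, Complex.zero_im]
    rw [e1, mul_zero] at m1
    rw [e2, mul_zero] at m2
    exact Complex.ext m1 m2
  have hnorm : ∀ A, ‖F A‖ ^ 2 = F1 A ^ 2 + F2 A ^ 2 := by
    intro A
    rw [← Complex.normSq_eq_norm_sq, Complex.normSq_apply]
    change _ = (F A).re ^ 2 + (F A).im ^ 2
    ring
  have hr' : (0 : ℝ) < r := by exact_mod_cast hr
  have hSpos : 0 < ‖F S‖ ^ 2 := by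
    have := norm_pos_iff.2 hS
    positivity
  have both : ∀ l, (∀ n, Walk F n S Sᶜ → l ≤ n) →
      ‖F S‖ ^ 2 ≤ (r + 1) * ((r / (r + 2) : ℝ) ^ l * ∑ A, ‖F A‖ ^ 2) := by
    intro l hl
    have d1 := real_part hr hE F hF hcompl S hS F1 hF1 hD1 l hl
    have d2 := real_part hr hE F hF hcompl S hS F2 hF2 hD2 l hl
    rw [hnorm S, Finset.sum_congr rfl fun A _ => hnorm A, Finset.sum_add_distrib]
    calc F1 S ^ 2 + F2 S ^ 2 ≤ _ := add_le_add d1 d2
      _ = _ := by ring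
  have hreach : Reach F S Sᶜ := by
    by_contra hc
    -- the weights tend to zero
    have h1 : ∀ l : ℕ, ‖F S‖ ^ 2 ≤ (r / (r + 2) : ℝ) ^ l * ((r + 1) * ∑ A, ‖F A‖ ^ 2) := by
      intro l
      have := both l (fun n hn => absurd ⟨n, hn⟩ hc)
      calc ‖F S‖ ^ 2 ≤ _ := this
        _ = _ := by ring
    have h2 : Filter.Tendsto (fun l : ℕ => (r / (r + 2) : ℝ) ^ l * ((r + 1) * ∑ A, ‖F A‖ ^ 2))
        Filter.atTop (nhds (0 * ((r + 1) * ∑ A, ‖F A‖ ^ 2))) := by
      refine Filter.Tendsto.mul_const _ (tendsto_pow_atTop_nhds_zero_of_lt_one (by positivity) ?_)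
      rw [div_lt_one (by positivity)]
      linarith
    rw [zero_mul] at h2
    have h3 := ge_of_tendsto' h2 h1
    linarith
  have hl := both (Nat.find hreach) (fun n hn => Nat.find_min' hreach hn)
  obtain ⟨c, h2, h3, h4⟩ := (Nat.find_spec hreach).path
  refine ⟨Nat.find hreach, ?_, c, h2, h3, fun i hi => h4 i hi⟩
  have e : (1 + 2 / (r : ℝ)) ^ (Nat.find hreach) * (r / (r + 2) : ℝ) ^ (Nat.find hreach) = 1 := by
    rw [← mul_pow]
    have : (1 + 2 / (r : ℝ)) * (r / (r + 2)) = 1 := by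
      field_simp
    rw [this, one_pow]
  calc (1 + 2 / (r : ℝ)) ^ (Nat.find hreach) * ‖F S‖ ^ 2 ≤
      (1 + 2 / (r : ℝ)) ^ (Nat.find hreach) *
        ((r + 1) * ((r / (r + 2) : ℝ) ^ (Nat.find hreach) * ∑ A, ‖F A‖ ^ 2)) :=
        mul_le_mul_of_nonneg_left hl (by positivity)
    _ = ((1 + 2 / (r : ℝ)) ^ (Nat.find hreach) * (r / (r + 2) : ℝ) ^ (Nat.find hreach)) *
        ((r + 1) * ∑ A, ‖F A‖ ^ 2) := by ring
    _ = _ := by rw [e, one_mul]

end Pool.Agent.H2Swap
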