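import Pool.Agent.H2Swap.Alg

/-!
# The key inequality
-/

set_option autoImplicit false

namespace Pool.Agent.H2Swap

open Finset

variable {E : Type*} [Fintype E] [DecidableEq E]

theorem D_compl (f : Finset E → ℝ) (C : Finset E) : D (fun A => f Aᶜ) C = U f Cᶜ := by
  unfold D U
  refine Finset.sum_congr rfl fun a _ => ?_
  change f (insert a C)ᶜ = _
  rw [compl_insert]

theorem sum_compl' (φ : Finset E → ℝ) : ∑ A : Finset E, φ Aᶜ = ∑ A, φ A :=
  Equiv.sum_comp (Function.Involutive.toPerm (compl : Finset E → Finset E) compl_involutive) φ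

theorem norm_D_compl {r : ℕ} (hE : Fintype.card E = 2 * r) (f : Finset E → ℝ)
    (hf : ∀ A, f A ≠ 0 → A.card = r) :
    ∑ C, D (fun A => f Aᶜ) C ^ 2 = ∑ C, D f C ^ 2 := by
  have h1 : ∑ C, D (fun A => f Aᶜ) C ^ 2 = ∑ C, U f C ^ 2 := by
    rw [← sum_compl' (fun C => U f C ^ 2)]
    exact Finset.sum_congr rfl fun C _ => by rw [D_compl]
  rw [h1, norm_U, add_eq_left]
  refine Finset.sum_eq_zero fun C _ => ?_
  by_cases h : f C = 0
  · rw [h]; ring
  · rw [hf C h, hE]
    push_cast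
    ring

theorem exists_h {r : ℕ} (hr : 0 < r) (hE : Fintype.card E = 2 * r) (f : Finset E → ℝ)
    (hf : ∀ A, f A ≠ 0 → A.card = r) :
    ∃ h : Finset E → ℝ, (∀ C, h C ≠ 0 → C.card + 1 = r) ∧
      ∀ A, U h A = f A - (-1) ^ r * f Aᶜ := by
  refine ⟨fun C => if C.card + 1 = r then ∑ B, kap r (C \ B).card * f B else 0, ?_, ?_⟩
  · intro C hC
    by_contra hc
    exact hC (if_neg hc)
  · intro A
    by_cases hA : A.card = r
    · have h1 : ∀ a ∈ A, (if (A.erase a).card + 1 = r then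
          ∑ B, kap r ((A.erase a) \ B).card * f B else 0) =
          ∑ B, kap r ((A.erase a) \ B).card * f B := by
        intro a ha
        rw [if_pos (by rw [card_erase_add_one ha, hA])]
      unfold U
      rw [Finset.sum_congr rfl h1, Finset.sum_comm]
      have h2 : ∀ B : Finset E, ∑ a ∈ A, kap r ((A.erase a) \ B).card * f B =
          (if B = A then f B else 0) - (-1) ^ r * (if B = Aᶜ then f B else 0) := by
        intro B
        rw [← Finset.sum_mul]
        by_cases hB : f B = 0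
        · rw [hB]; simp
        · rw [kap_sum hr A B hA (hf B hB) hE]
          split_ifs <;> ring
      rw [Finset.sum_congr rfl fun B _ => h2 B, Finset.sum_sub_distrib, ← Finset.mul_sum]
      simp
    · have h1 : f A = 0 := by
        by_contra hc
        exact hA (hf A hc)
      have h2 : f Aᶜ = 0 := by
        by_contra hc
        have h3 := hf _ hc
        rw [card_compl, hE] at h3
        have := card_le_univ A
        rw [hE] at this
        omega
      rw [h1, h2]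
      unfold U
      rw [Finset.sum_eq_zero]
      · ring
      · intro a ha
        exact if_neg (by rw [card_erase_add_one ha]; exact hA)

theorem sum_g {r : ℕ} (hr : 0 < r) (hE : Fintype.card E = 2 * r) (f : Finset E → ℝ)
    (hf : ∀ A, f A ≠ 0 → A.card = r) :
    ∑ A, (f A - (-1) ^ r * f Aᶜ) ^ 2 ≤ 2 * ∑ C, D f C ^ 2 := by
  obtain ⟨h, hh, hU⟩ := exists_h hr hE f hf
  set g : Finset E → ℝ := fun A => f A - (-1) ^ r * f Aᶜ with hg
  have hU' : ∀ A, U h A = g A := hU
  have n1 : ∑ A, g A ^ 2 ≤ (1 / 4) * ∑ C, D g C ^ 2 + ∑ C, h C ^ 2 := by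
    have h1 : ∑ A, g A ^ 2 = ∑ C, D g C * h C := by
      rw [adjoint]
      exact Finset.sum_congr rfl fun A _ => by rw [hU', sq]
    rw [h1, Finset.mul_sum, ← Finset.sum_add_distrib]
    refine Finset.sum_le_sum fun C _ => ?_
    nlinarith [sq_nonneg (D g C / 2 - h C)]
  have n2 : 2 * ∑ C, h C ^ 2 ≤ ∑ A, g A ^ 2 := by
    have h1 : ∑ A, g A ^ 2 = ∑ A, U h A ^ 2 :=
      Finset.sum_congr rfl fun A _ => by rw [hU']
    rw [h1, norm_U]
    have h2 : ∑ C, ((Fintype.card E : ℝ) - 2 * C.card) * h C ^ 2 = 2 * ∑ C, h C ^ 2 := by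
      rw [Finset.mul_sum]
      refine Finset.sum_congr rfl fun C _ => ?_
      by_cases hC : h C = 0
      · rw [hC]; ring
      · have h3 := hh C hC
        have h4 : (r : ℝ) = C.card + 1 := by exact_mod_cast h3.symm
        rw [hE]
        push_cast
        rw [h4]
        ring
    rw [h2]
    have h5 : 0 ≤ ∑ C, D h C ^ 2 := Finset.sum_nonneg fun C _ => sq_nonneg _
    linarith
  have n3 : ∑ C, D g C ^ 2 ≤ 4 * ∑ C, D f C ^ 2 := by
    have h1 : ∀ C, D g C ^ 2 ≤ 2 * D f C ^ 2 + 2 * D (fun A => f Aᶜ) C ^ 2 := by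
      intro C
      have h2 : D g C = D f C - (-1) ^ r * D (fun A => f Aᶜ) C := by
        unfold D
        rw [Finset.mul_sum, ← Finset.sum_sub_distrib]
      have h3 : ((-1 : ℝ) ^ r) ^ 2 = 1 := by
        rw [← pow_mul, mul_comm, pow_mul]; norm_num
      rw [h2]
      nlinarith [sq_nonneg (D f C + (-1) ^ r * D (fun A => f Aᶜ) C)]
    calc ∑ C, D g C ^ 2 ≤ ∑ C, (2 * D f C ^ 2 + 2 * D (fun A => f Aᶜ) C ^ 2) :=
          Finset.sum_le_sum fun C _ => h1 C
      _ = 4 * ∑ C, D f C ^ 2 := by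
          rw [Finset.sum_add_distrib, ← Finset.mul_sum, ← Finset.mul_sum, norm_D_compl hE f hf]
          ring
  change ∑ A, g A ^ 2 ≤ _
  linarith

/-- **Key inequality.** -/
theorem key {r : ℕ} (hr : 0 < r) (hE : Fintype.card E = 2 * r) (f : Finset E → ℝ)
    (hf : ∀ A, f A ≠ 0 → A.card = r) (hdis : ∀ A, f A = 0 ∨ f Aᶜ = 0) :
    ∑ A, f A ^ 2 ≤ ∑ C, D f C ^ 2 := by
  have h1 := sum_g hr hE f hf
  have h3 : ((-1 : ℝ) ^ r) ^ 2 = 1 := by
    rw [← pow_mul, mul_comm, pow_mul]; norm_num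
  have h2 : ∑ A, (f A - (-1) ^ r * f Aᶜ) ^ 2 = 2 * ∑ A, f A ^ 2 := by
    have h4 : ∀ A, (f A - (-1) ^ r * f Aᶜ) ^ 2 = f A ^ 2 + f Aᶜ ^ 2 := by
      intro A
      rcases hdis A with h | h
      · rw [h]
        calc ((0 : ℝ) - (-1) ^ r * f Aᶜ) ^ 2 = ((-1 : ℝ) ^ r) ^ 2 * f Aᶜ ^ 2 := by ring
          _ = 0 ^ 2 + f Aᶜ ^ 2 := by rw [h3]; ring
      · rw [h]; ring
    rw [Finset.sum_congr rfl fun A _ => h4 A, Finset.sum_add_distrib,
      sum_compl' (fun A => f A ^ 2)]
    ring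
  rw [h2] at h1
  linarith

/-- Mirror symmetry of harmonic functions. -/
theorem mirror {r : ℕ} (hr : 0 < r) (hE : Fintype.card E = 2 * r) (f : Finset E → ℝ)
    (hf : ∀ A, f A ≠ 0 → A.card = r) (hD : ∀ C, D f C = 0) (A : Finset E) :
    f A = (-1) ^ r * f Aᶜ := by
  have h1 := sum_g hr hE f hf
  have h2 : ∑ C : Finset E, D f C ^ 2 = 0 :=
    Finset.sum_eq_zero fun C _ => by rw [hD C]; ring
  rw [h2, mul_zero] at h1
  have h3 : ∀ A ∈ (univ : Finset (Finset E)), (f A - (-1) ^ r * f Aᶜ) ^ 2 = 0 :=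
    (Finset.sum_eq_zero_iff_of_nonneg fun A _ => sq_nonneg _).1
      (le_antisymm h1 (Finset.sum_nonneg fun A _ => sq_nonneg _))
  have h4 := h3 A (mem_univ A)
  have h5 := pow_eq_zero_iff (two_ne_zero) |>.1 h4
  linarith

end Pool.Agent.H2Swap
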