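import Mathlib

set_option autoImplicit false

/-!
# The numeric step: a path of length `l` with `(1 + 2 / r) ^ l ≤ (r + 1) * binom (2 r) r` has
`l ≤ r ^ 2`
-/

namespace Pool.Agent.H88Len

private theorem base_ge {r : ℕ} (hr : 3 ≤ r) : (125 / 27 : ℝ) ≤ (1 + 2 / (r : ℝ)) ^ r := by
  have hr0 : (0 : ℝ) < r := by
    have : 0 < r := by omega
    exact_mod_cast this
  have h3 : (3 : ℝ) ≤ r := by exact_mod_cast hr
  have h1 : 1 + (r : ℝ) / 3 * (2 / r) ≤ (1 + 2 / (r : ℝ)) ^ ((r : ℝ) / 3) := by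
    refine one_add_mul_self_le_rpow_one_add ?_ ?_
    · have : 0 < 2 / (r : ℝ) := by positivity
      linarith
    · rw [le_div_iff₀ (by norm_num)]
      linarith
  have h2 : 1 + (r : ℝ) / 3 * (2 / r) = 5 / 3 := by
    field_simp
    norm_num
  rw [h2] at h1
  have h4 : ((1 + 2 / (r : ℝ)) ^ ((r : ℝ) / 3)) ^ 3 = (1 + 2 / (r : ℝ)) ^ r := by
    rw [← Real.rpow_natCast, ← Real.rpow_mul (by positivity), ← Real.rpow_natCast]
    congr 1
    push_cast
    ring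
  rw [← h4]
  calc (125 / 27 : ℝ) = (5 / 3) ^ 3 := by norm_num
    _ ≤ _ := pow_le_pow_left₀ (by norm_num) h1 3

private theorem choose_step (r : ℕ) :
    (r + 1) * (2 * (r + 1)).choose (r + 1) = 2 * (2 * r + 1) * (2 * r).choose r := by
  have := Nat.succ_mul_centralBinom_succ r
  simpa [Nat.centralBinom] using this

private theorem bin_le : ∀ r : ℕ, 3 ≤ r →
    ((r : ℝ) + 1) * ((2 * r).choose r : ℝ) < (125 / 27) ^ r := by
  intro r hr
  induction r, hr using Nat.le_induction with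
  | base =>
    have : (2 * 3).choose 3 = 20 := by decide
    rw [this]
    norm_num
  | succ r hr ih =>
    have h := choose_step r
    have h' : ((r : ℝ) + 1) * ((2 * (r + 1)).choose (r + 1) : ℝ) =
        2 * (2 * r + 1) * ((2 * r).choose r : ℝ) := by
      exact_mod_cast h
    have h3 : (3 : ℝ) ≤ r := by exact_mod_cast hr
    have hc : (0 : ℝ) ≤ ((2 * r).choose r : ℝ) := by positivity
    set c : ℝ := ((2 * r).choose r : ℝ)
    set d : ℝ := ((2 * (r + 1)).choose (r + 1) : ℝ)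
    have hd : d = 2 * (2 * r + 1) * c / (r + 1) := by
      rw [eq_div_iff (by positivity)]
      linarith
    have h4 : ((r : ℝ) + 1 + 1) * d ≤ 125 / 27 * (((r : ℝ) + 1) * c) := by
      rw [hd, ← mul_div_assoc, div_le_iff₀ (by positivity)]
      have h5 : ((r : ℝ) + 1 + 1) * (2 * (2 * r + 1)) ≤ 125 / 27 * ((r : ℝ) + 1) * (r + 1) := by
        nlinarith
      calc ((r : ℝ) + 1 + 1) * (2 * (2 * r + 1) * c)
          = ((r : ℝ) + 1 + 1) * (2 * (2 * r + 1)) * c := by ring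
        _ ≤ 125 / 27 * ((r : ℝ) + 1) * (r + 1) * c := mul_le_mul_of_nonneg_right h5 hc
        _ = 125 / 27 * (((r : ℝ) + 1) * c) * (r + 1) := by ring
    push_cast
    calc ((r : ℝ) + 1 + 1) * d ≤ 125 / 27 * (((r : ℝ) + 1) * c) := h4
      _ < 125 / 27 * (125 / 27) ^ r := by
          refine mul_lt_mul_of_pos_left ih (by norm_num)
      _ = (125 / 27) ^ (r + 1) := by ring

private theorem key {r : ℕ} (hr : 1 ≤ r) :
    ((r : ℝ) + 1) * ((2 * r).choose r : ℝ) < (1 + 2 / (r : ℝ)) ^ (r ^ 2 + 1) := by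
  rcases Nat.lt_or_ge r 3 with h | h
  · interval_cases r
    · norm_num
    · have : (2 * 2).choose 2 = 6 := by decide
      rw [this]
      norm_num
  · have h1 := bin_le r h
    have h2 := base_ge h
    have h3 : (1 : ℝ) ≤ 1 + 2 / (r : ℝ) := by
      have : 0 ≤ 2 / (r : ℝ) := by positivity
      linarith
    calc ((r : ℝ) + 1) * ((2 * r).choose r : ℝ) < (125 / 27) ^ r := h1
      _ ≤ ((1 + 2 / (r : ℝ)) ^ r) ^ r := pow_le_pow_left₀ (by norm_num) h2 r
      _ = (1 + 2 / (r : ℝ)) ^ (r ^ 2) := by rw [← pow_mul, sq]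
      _ ≤ (1 + 2 / (r : ℝ)) ^ (r ^ 2 + 1) := pow_le_pow_right₀ h3 (Nat.le_succ _)

/-- If `(1 + 2 / r) ^ l ≤ (r + 1) * binom (2 r) r` then `l ≤ r ^ 2`. -/
theorem len_le {r l : ℕ} (hr : 1 ≤ r)
    (h : (1 + 2 / (r : ℝ)) ^ l ≤ ((r : ℝ) + 1) * ((2 * r).choose r : ℝ)) : l ≤ r ^ 2 := by
  by_contra hl
  have h1 : r ^ 2 + 1 ≤ l := by omega
  have h3 : (1 : ℝ) ≤ 1 + 2 / (r : ℝ) := by
    have : 0 ≤ 2 / (r : ℝ) := by positivity
    linarith
  have h2 : (1 + 2 / (r : ℝ)) ^ (r ^ 2 + 1) ≤ (1 + 2 / (r : ℝ)) ^ l := pow_le_pow_right₀ h3 h1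
  have := key hr
  linarith

/-- The same with a factor `2 ^ s`, in natural numbers. -/
theorem nat_lt {r : ℕ} (hr : 1 ≤ r) (s : ℕ) :
    (r + 1) * (2 * r).choose r * 2 ^ s * r ^ (r ^ 2 + 1 + s * r) <
      (r + 2) ^ (r ^ 2 + 1 + s * r) := by
  have hr0 : (0 : ℝ) < r := by
    have : 0 < r := by omega
    exact_mod_cast this
  have h1 := key hr
  have h2 : (2 : ℝ) ≤ (1 + 2 / (r : ℝ)) ^ r := by
    have h := one_add_mul_le_pow (a := 2 / (r : ℝ)) (by
      have : 0 ≤ 2 / (r : ℝ) := by positivity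
      linarith) r
    have h3 : (r : ℝ) * (2 / r) = 2 := by field_simp
    linarith
  have h3 : (2 : ℝ) ^ s ≤ (1 + 2 / (r : ℝ)) ^ (s * r) := by
    calc (2 : ℝ) ^ s ≤ ((1 + 2 / (r : ℝ)) ^ r) ^ s := pow_le_pow_left₀ (by norm_num) h2 s
      _ = _ := by rw [← pow_mul, mul_comm]
  have h4 : ((r : ℝ) + 1) * ((2 * r).choose r : ℝ) * 2 ^ s <
      (1 + 2 / (r : ℝ)) ^ (r ^ 2 + 1 + s * r) := by
    rw [pow_add]
    exact mul_lt_mul h1 h3 (by positivity) (by positivity)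
  have h5 : (1 + 2 / (r : ℝ)) * r = r + 2 := by field_simp
  have h6 : (((r + 1) * (2 * r).choose r * 2 ^ s * r ^ (r ^ 2 + 1 + s * r) : ℕ) : ℝ) <
      (((r + 2) ^ (r ^ 2 + 1 + s * r) : ℕ) : ℝ) := by
    push_cast
    rw [← h5, mul_pow]
    exact mul_lt_mul_of_pos_right h4 (by positivity)
  exact_mod_cast h6

end Pool.Agent.H88Len
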