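import Pool.Agent.H2Swap.Exp
import Pool.Agent.H2Swap.Len88

/-!
# The length of the walk
-/

set_option autoImplicit false

namespace Pool.Agent.H2Swap

open Finset

theorem len_two {r n s : ℕ} (hr : 0 < r)
    (h : (1 + 2 / (r : ℝ)) ^ n ≤ ((r : ℝ) + 1) * ((2 * r).choose r : ℝ) * 2 ^ s) :
    n ≤ r ^ 2 + s * ((r + 1) / 2) := by
  set q := (r + 1) / 2 with hq
  by_cases hn : n ≤ s * q
  · omega
  push Not at hn
  obtain ⟨m, rfl⟩ := Nat.exists_eq_add_of_lt hn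
  have hr0 : (0 : ℝ) < r := by exact_mod_cast hr
  have h1 : (2 : ℝ) ≤ (1 + 2 / (r : ℝ)) ^ q := by
    have h2 := one_add_mul_le_pow (a := 2 / (r : ℝ)) (by
      have : 0 ≤ 2 / (r : ℝ) := by positivity
      linarith) q
    have h3 : (1 : ℝ) ≤ (q : ℝ) * (2 / r) := by
      rw [← mul_div_assoc, le_div_iff₀ hr0]
      have : r ≤ q * 2 := by omega
      have : (r : ℝ) ≤ q * 2 := by exact_mod_cast this
      linarith
    linarith
  have h2 : (2 : ℝ) ^ s ≤ (1 + 2 / (r : ℝ)) ^ (s * q) := by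
    rw [mul_comm s q, pow_mul]
    exact pow_le_pow_left₀ (by norm_num) h1 s
  have h3 : (1 + 2 / (r : ℝ)) ^ (m + 1) ≤ ((r : ℝ) + 1) * ((2 * r).choose r : ℝ) := by
    have h4 : (0 : ℝ) < 2 ^ s := by positivity
    refine le_of_mul_le_mul_right ?_ h4
    calc (1 + 2 / (r : ℝ)) ^ (m + 1) * 2 ^ s ≤
        (1 + 2 / (r : ℝ)) ^ (m + 1) * (1 + 2 / (r : ℝ)) ^ (s * q) :=
          mul_le_mul_of_nonneg_left h2 (by positivity)
      _ = (1 + 2 / (r : ℝ)) ^ (s * q + m + 1) := by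
          rw [← pow_add]
          congr 1
          ring
      _ ≤ _ := h
  have h4 := Pool.Agent.H88Len.len_le hr h3
  omega

variable {E : Type*} [Fintype E] [DecidableEq E]

/-- **Short walks, explicit length.** -/
theorem short_walk_le {r s : ℕ} (hr : 0 < r) (hE : Fintype.card E = 2 * r) (F : Finset E → ℂ)
    (hF : ∀ A, F A ≠ 0 → A.card = r) (hrel : ∀ C : Finset E, ∑ a ∈ Cᶜ, F (insert a C) = 0)
    (S : Finset E) (hS : F S ≠ 0) (hs : ∀ A, ‖F A‖ ^ 2 ≤ 2 ^ s * ‖F S‖ ^ 2) :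
    ∃ n ≤ r ^ 2 + s * ((r + 1) / 2), ∃ c : ℕ → Finset E, c 0 = S ∧ c n = Sᶜ ∧
      ∀ i < n, F (c i) ≠ 0 ∧ F (c (i + 1)) ≠ 0 ∧
        ∃ a ∈ c i, ∃ b, b ∉ c i ∧ c (i + 1) = insert b ((c i).erase a) := by
  obtain ⟨n, hn, hc⟩ := short_walk hr hE F hF hrel S hS
  refine ⟨n, len_two hr ?_, hc⟩
  have hSpos : 0 < ‖F S‖ ^ 2 := by
    have := norm_pos_iff.2 hS
    positivity
  have h1 : ∑ A, ‖F A‖ ^ 2 ≤ ((2 * r).choose r : ℝ) * (2 ^ s * ‖F S‖ ^ 2) := by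
    have h2 : ∑ A, ‖F A‖ ^ 2 = ∑ A ∈ powersetCard r (univ : Finset E), ‖F A‖ ^ 2 := by
      symm
      refine Finset.sum_subset (subset_univ _) fun A _ hA => ?_
      have : F A = 0 := by
        by_contra hc
        exact hA (mem_powersetCard.2 ⟨subset_univ _, hF A hc⟩)
      rw [this]; simp
    rw [h2]
    calc ∑ A ∈ powersetCard r (univ : Finset E), ‖F A‖ ^ 2 ≤
        ∑ A ∈ powersetCard r (univ : Finset E), 2 ^ s * ‖F S‖ ^ 2 :=
          Finset.sum_le_sum fun A _ => hs A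
      _ = _ := by
          rw [Finset.sum_const, card_powersetCard, card_univ, hE, nsmul_eq_mul]
  refine le_of_mul_le_mul_right ?_ hSpos
  calc (1 + 2 / (r : ℝ)) ^ n * ‖F S‖ ^ 2 ≤ (r + 1) * ∑ A, ‖F A‖ ^ 2 := hn
    _ ≤ (r + 1) * (((2 * r).choose r : ℝ) * (2 ^ s * ‖F S‖ ^ 2)) :=
        mul_le_mul_of_nonneg_left h1 (by positivity)
    _ = _ := by ring

end Pool.Agent.H2Swap
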