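import Pool.Agent.H2Swap.Double

/-!
# Short paths in the support of a harmonic function
-/

set_option autoImplicit false

namespace Pool.Agent.H2Swap

open Finset Classical

variable {E : Type*} [Fintype E] [DecidableEq E]

/-- One exchange in the support of `F`. -/
def Adj (F : Finset E → ℂ) (A B : Finset E) : Prop :=
  F A ≠ 0 ∧ F B ≠ 0 ∧ ∃ a ∈ A, ∃ b, b ∉ A ∧ B = insert b (A.erase a)

/-- A walk with `n` exchanges. -/
def Walk (F : Finset E → ℂ) : ℕ → Finset E → Finset E → Prop
  | 0, A, B => A = B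
  | n + 1, A, B => ∃ A', Walk F n A A' ∧ Adj F A' B

theorem Adj.symm {F : Finset E → ℂ} {A B : Finset E} (h : Adj F A B) : Adj F B A := by
  obtain ⟨h1, h2, a, ha, b, hb, rfl⟩ := h
  refine ⟨h2, h1, b, mem_insert_self _ _, a, ?_, ?_⟩
  · rw [mem_insert, not_or]
    exact ⟨fun h => hb (h ▸ ha), notMem_erase _ _⟩
  · rw [erase_insert (fun h => hb (mem_of_mem_erase h)), insert_erase ha]

theorem Adj.compl {F : Finset E → ℂ} (hF : ∀ A, F A ≠ 0 → F Aᶜ ≠ 0) {A B : Finset E}
    (h : Adj F A B) : Adj F Aᶜ Bᶜ := by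
  obtain ⟨h1, h2, a, ha, b, hb, rfl⟩ := h
  refine ⟨hF _ h1, hF _ h2, b, mem_compl.2 hb, a, by simpa using ha, ?_⟩
  ext x
  simp only [mem_compl, mem_insert, mem_erase, not_or, not_and_or, not_not]
  constructor
  · rintro ⟨h3, h4 | h4⟩
    · exact Or.inl h4
    · exact Or.inr ⟨h3, h4⟩
  · rintro (h4 | ⟨h3, h4⟩)
    · subst h4
      exact ⟨fun h => hb (h ▸ ha), Or.inl rfl⟩
    · exact ⟨h3, Or.inr h4⟩

theorem Walk.trans {F : Finset E → ℂ} {m n : ℕ} {A B C : Finset E} (h1 : Walk F m A B)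
    (h2 : Walk F n B C) : Walk F (m + n) A C := by
  induction n generalizing C with
  | zero =>
    have : B = C := h2
    exact this ▸ h1
  | succ n ih =>
    obtain ⟨A', h3, h4⟩ := h2
    exact ⟨A', ih h3, h4⟩

theorem Walk.symm {F : Finset E → ℂ} {n : ℕ} {A B : Finset E} (h : Walk F n A B) :
    Walk F n B A := by
  induction n generalizing B with
  | zero => exact Eq.symm (show A = B from h)
  | succ n ih =>
    obtain ⟨A', h3, h4⟩ := h
    have h5 : Walk F 1 B A' := ⟨B, rfl, h4.symm⟩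
    have h6 := h5.trans (ih h3)
    rwa [Nat.add_comm] at h6

theorem Walk.compl {F : Finset E → ℂ} (hF : ∀ A, F A ≠ 0 → F Aᶜ ≠ 0) {n : ℕ} {A B : Finset E}
    (h : Walk F n A B) : Walk F n Aᶜ Bᶜ := by
  induction n generalizing B with
  | zero => exact congrArg _ (show A = B from h)
  | succ n ih =>
    obtain ⟨A', h3, h4⟩ := h
    exact ⟨_, ih h3, h4.compl hF⟩

theorem Walk.path {F : Finset E → ℂ} {n : ℕ} {A B : Finset E} (h : Walk F n A B) :
    ∃ c : ℕ → Finset E, c 0 = A ∧ c n = B ∧ ∀ i < n, Adj F (c i) (c (i + 1)) := by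
  induction n generalizing B with
  | zero => exact ⟨fun _ => A, rfl, show A = B from h, fun i hi => absurd hi (by omega)⟩
  | succ n ih =>
    obtain ⟨A', h3, h4⟩ := h
    obtain ⟨c, h5, h6, h7⟩ := ih h3
    refine ⟨fun i => if i ≤ n then c i else B, ?_, ?_, ?_⟩
    · simp [h5]
    · simp
    · intro i hi
      rcases Nat.lt_or_ge i n with h8 | h8
      · simp only [if_pos h8.le, if_pos (show i + 1 ≤ n by omega)]
        exact h7 i h8
      · have h9 : i = n := by omega
        subst h9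
        simp only [le_refl, if_true, if_neg (show ¬ i + 1 ≤ i by omega), h6]
        exact h4

/-- The ball of radius `k` around `S`. -/
def Ball (F : Finset E → ℂ) (S : Finset E) (k : ℕ) (A : Finset E) : Prop :=
  ∃ n ≤ k, Walk F n S A

theorem Ball.ne {F : Finset E → ℂ} {S : Finset E} (hS : F S ≠ 0) {k : ℕ} {A : Finset E}
    (h : Ball F S k A) : F A ≠ 0 := by
  obtain ⟨n, _, h1⟩ := h
  cases n with
  | zero => exact (show S = A from h1) ▸ hS
  | succ n =>
    obtain ⟨A', _, h3⟩ := h1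
    exact h3.2.1

theorem ball_step {F : Finset E → ℂ} {S : Finset E} (hS : F S ≠ 0) (k : ℕ) (C : Finset E)
    (a b : E) (ha : a ∉ C) (hb : b ∉ C) (h : Ball F S k (insert a C))
    (hF : F (insert b C) ≠ 0) : Ball F S (k + 1) (insert b C) := by
  rcases eq_or_ne b a with rfl | hab
  · obtain ⟨n, hn, h1⟩ := h
    exact ⟨n, by omega, h1⟩
  · have h0 := h.ne hS
    obtain ⟨n, hn, h1⟩ := h
    refine ⟨n + 1, by omega, _, h1, h0, hF, a, mem_insert_self _ _, b, ?_, ?_⟩
    · rw [mem_insert, not_or]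
      exact ⟨hab, hb⟩
    · rw [erase_insert ha]

/-- **Short paths.** -/
theorem short_path {r s : ℕ} (hr : 0 < r) (hE : Fintype.card E = 2 * r) (F : Finset E → ℂ)
    (hF : ∀ A, F A ≠ 0 → A.card = r) (hrel : ∀ C : Finset E, ∑ a ∈ Cᶜ, F (insert a C) = 0)
    (S : Finset E) (hS : F S ≠ 0) (hs : ∀ A, ‖F A‖ ^ 2 ≤ 2 ^ s * ‖F S‖ ^ 2) :
    ∃ n ≤ 2 * r * (2 * r + s), ∃ c : ℕ → Finset E, c 0 = S ∧ c n = Sᶜ ∧
      ∀ i < n, F (c i) ≠ 0 ∧ F (c (i + 1)) ≠ 0 ∧
        ∃ a ∈ c i, ∃ b, b ∉ c i ∧ c (i + 1) = insert b ((c i).erase a) := by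
  -- real and imaginary part
  let F1 : Finset E → ℝ := fun A => (F A).re
  let F2 : Finset E → ℝ := fun A => (F A).im
  have hF1 : ∀ A, F1 A ≠ 0 → F A ≠ 0 := fun A h hc => h (by
    change (F A).re = 0
    rw [hc, Complex.zero_re])
  have hF2 : ∀ A, F2 A ≠ 0 → F A ≠ 0 := fun A h hc => h (by
    change (F A).im = 0
    rw [hc, Complex.zero_im])
  have hD1 : ∀ C, D F1 C = 0 := by
    intro C
    have := congrArg Complex.re (hrel C)
    rw [Complex.re_sum, Complex.zero_re] at this
    exact this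
  have hD2 : ∀ C, D F2 C = 0 := by
    intro C
    have := congrArg Complex.im (hrel C)
    rw [Complex.im_sum, Complex.zero_im] at this
    exact this
  have hcompl : ∀ A, F A ≠ 0 → F Aᶜ ≠ 0 := by
    intro A hA hc
    apply hA
    have m1 := mirror hr hE F1 (fun A h => hF A (hF1 A h)) hD1 A
    have m2 := mirror hr hE F2 (fun A h => hF A (hF2 A h)) hD2 A
    have e1 : F1 Aᶜ = 0 := by change (F Aᶜ).re = 0; rw [hc, Complex.zero_re]
    have e2 : F2 Aᶜ = 0 := by change (F Aᶜ).im = 0; rw [hc, Complex.zero_im]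
    rw [e1, mul_zero] at m1
    rw [e2, mul_zero] at m2
    exact Complex.ext m1 m2
  have main : Ball F S (2 * r * (2 * r + s)) Sᶜ := by
    by_contra hcon
    -- balls around the two ends are disjoint
    have hdis : ∀ i, 2 * i ≤ 2 * r * (2 * r + s) → ∀ A, ¬ (Ball F S i A ∧ Ball F S i Aᶜ) := by
      rintro i hi A ⟨⟨n, hn, h1⟩, ⟨m, hm, h2⟩⟩
      apply hcon
      have h3 := (h1.compl hcompl).symm
      exact ⟨m + n, by omega, h2.trans h3⟩
    let M : ℕ → ℝ := fun k => ∑ A, (if Ball F S k A then ‖F A‖ ^ 2 else 0)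
    have hM : ∀ k, M k = ∑ A, (if Ball F S k A then F1 A ^ 2 else 0) +
        ∑ A, (if Ball F S k A then F2 A ^ 2 else 0) := by
      intro k
      rw [← Finset.sum_add_distrib]
      refine Finset.sum_congr rfl fun A _ => ?_
      split_ifs
      · rw [← Complex.normSq_eq_norm_sq, Complex.normSq_apply]
        change _ = (F A).re ^ 2 + (F A).im ^ 2
        ring
      · ring
    have hdouble : ∀ k, 2 * (k + r) ≤ 2 * r * (2 * r + s) → 2 * M k ≤ M (k + r) := by
      intro k hk
      have hmono : ∀ k A, Ball F S k A → Ball F S (k + 1) A := by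
        rintro k A ⟨n, hn, h1⟩
        exact ⟨n, by omega, h1⟩
      have d1 := double hr hE F1 (fun A h => hF A (hF1 A h)) hD1 (Ball F S) hmono
        (fun k C a b ha hb h hG => ball_step hS k C a b ha hb h (hF1 _ hG)) k
        (hdis (k + r) hk)
      have d2 := double hr hE F2 (fun A h => hF A (hF2 A h)) hD2 (Ball F S) hmono
        (fun k C a b ha hb h hG => ball_step hS k C a b ha hb h (hF2 _ hG)) k
        (hdis (k + r) hk)
      rw [hM k, hM (k + r)]
      linarith
    have hgrow : ∀ j, j ≤ 2 * r + s → 2 ^ j * ‖F S‖ ^ 2 ≤ M (j * r) := by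
      intro j
      induction j with
      | zero =>
        intro _
        rw [Nat.zero_mul, pow_zero, one_mul]
        have h1 : (if Ball F S 0 S then ‖F S‖ ^ 2 else 0) ≤ M 0 :=
          Finset.single_le_sum (f := fun A => if Ball F S 0 A then ‖F A‖ ^ 2 else 0)
            (fun A _ => by
              change 0 ≤ if Ball F S 0 A then ‖F A‖ ^ 2 else 0
              split_ifs
              · positivity
              · exact le_rfl) (mem_univ S)
        rwa [if_pos ⟨0, le_rfl, rfl⟩] at h1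
      | succ j ih =>
        intro hj
        have h1 := ih (by omega)
        have h2 : 2 * (j * r + r) ≤ 2 * r * (2 * r + s) := by
          calc 2 * (j * r + r) = 2 * r * (j + 1) := by ring
            _ ≤ _ := Nat.mul_le_mul_left _ hj
        have h3 := hdouble (j * r) h2
        rw [show (j + 1) * r = j * r + r by ring, pow_succ]
        linarith
    have h1 := hgrow (2 * r + s) le_rfl
    have hSpos : 0 < ‖F S‖ ^ 2 := by
      have := norm_pos_iff.2 hS
      positivity
    have h0 : F ∅ = 0 := by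
      by_contra hc
      have := hF _ hc
      rw [card_empty] at this
      omega
    have h2 : M ((2 * r + s) * r) ≤ (2 ^ (2 * r) - 1) * (2 ^ s * ‖F S‖ ^ 2) := by
      have e : M ((2 * r + s) * r) = ∑ A ∈ univ.erase (∅ : Finset E),
          (if Ball F S ((2 * r + s) * r) A then ‖F A‖ ^ 2 else 0) := by
        symm
        refine Finset.sum_erase _ ?_
        rw [h0]; simp
      rw [e]
      calc ∑ A ∈ univ.erase (∅ : Finset E),
          (if Ball F S ((2 * r + s) * r) A then ‖F A‖ ^ 2 else 0)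
          ≤ ∑ A ∈ univ.erase (∅ : Finset E), 2 ^ s * ‖F S‖ ^ 2 := by
            refine Finset.sum_le_sum fun A _ => ?_
            split_ifs
            · exact hs A
            · positivity
        _ = (2 ^ (2 * r) - 1) * (2 ^ s * ‖F S‖ ^ 2) := by
            rw [Finset.sum_const, card_erase_of_mem (mem_univ _), card_univ, Fintype.card_finset, hE,
              nsmul_eq_mul, Nat.cast_sub (Nat.one_le_two_pow)]
            push_cast
            ring
    have h3 : (2 : ℝ) ^ (2 * r + s) * ‖F S‖ ^ 2 = 2 ^ (2 * r) * (2 ^ s * ‖F S‖ ^ 2) := by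
      rw [pow_add]; ring
    rw [h3] at h1
    have h4 : (0 : ℝ) < 2 ^ s * ‖F S‖ ^ 2 := by positivity
    nlinarith
  obtain ⟨n, hn, h1⟩ := main
  obtain ⟨c, h2, h3, h4⟩ := h1.path
  exact ⟨n, hn, c, h2, h3, fun i hi => h4 i hi⟩

end Pool.Agent.H2Swap
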